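import Mathlib
import Pool.Agent.HuaVal.Alg

/-!
Finite degree along the field of two points: definitions.
-/

set_option autoImplicit false

open Polynomial

namespace Pool.Agent.HuaFd69

open Pool.Agent.HuaVal

/-- The image of the field `L` under `φ` is a part of the system `J`, with the maps of `L`. -/
structure FP {A L : Type} [AddCommGroup A] [Field L] (J : A → A → A) (φ : L →+ A) : Prop where
  inj : Function.Injective φ
  J : ∀ u v : L, u ≠ 0 → v ≠ 0 → J (φ u) (φ v) = φ (u * u * v⁻¹)

/-- Difference of a function. -/
def dl {A : Type} [AddCommGroup A] (c : A) (F : A → A) : A → A := fun u => F (u + c) - F u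

/-- Iterated differences of a function. -/
def iter {A : Type} [AddCommGroup A] (l : List A) (F : A → A) : A → A := l.foldr dl F

/-- The functions `u ↦ c + n u`. -/
def Aff {A : Type} [AddCommGroup A] (F : A → A) : Prop :=
  ∃ (c : A) (n : ℤ), ∀ u, F u = c + n • u

/-- `L` is generated as a field by `t` over the prime field. -/
def Gens (p : ℕ) {L : Type} [Field L] [Algebra (ZMod p) L] (t : L) : Prop :=
  ∀ x : L, ∃ h g : (ZMod p)[X], aeval t g ≠ 0 ∧ x = aeval t h / aeval t g

/-- The first difference, in the direction of `t`, of the square with respect to the unit, has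
finite degree along the field. -/
def FinDeg (p : ℕ) {A : Type} [AddCommGroup A] (J : A → A → A) : Prop :=
  ∀ (L : Type) [Field L] [Algebra (ZMod p) L] (φ : L →+ A), FP J φ → ∀ t : L, Gens p t →
    ∃ N : ℕ, ∀ l : List L, l.length = N →
      Aff (iter (l.map φ) (dl (φ t) fun u => H J (φ 1) u (φ 1)))

end Pool.Agent.HuaFd69
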