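import Mathlib
import Pool.Agent.HuaFd69.Defs

/-!
Subfields generated by one element.
-/

set_option autoImplicit false

open Polynomial

namespace Pool.Agent.HuaFd69

section

variable {p : ℕ} [Fact p.Prime] {L : Type} [Field L] [Algebra (ZMod p) L]

/-- The subfield generated by `r`. -/
abbrev Fr (p : ℕ) [Fact p.Prime] {L : Type} [Field L] [Algebra (ZMod p) L] (r : L) :
    IntermediateField (ZMod p) L := IntermediateField.adjoin (ZMod p) {r}

/-- The generator. -/
def gr (p : ℕ) [Fact p.Prime] {L : Type} [Field L] [Algebra (ZMod p) L] (r : L) : Fr p r :=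
  ⟨r, IntermediateField.mem_adjoin_simple_self (ZMod p) r⟩

theorem gr_coe (r : L) : (Fr p r).val (gr p r) = r := rfl

theorem gens_gr (r : L) : Gens p (gr p r) := by
  intro x
  obtain ⟨h, g, hx⟩ := (IntermediateField.mem_adjoin_simple_iff (ZMod p) (x : L)).mp x.2
  have e : ∀ f : (ZMod p)[X], ((aeval (gr p r) f : Fr p r) : L) = aeval r f := by
    intro f
    exact (aeval_algHom_apply (Fr p r).val (gr p r) f).symm
  by_cases hg : aeval r g = 0
  · refine ⟨0, 1, by simp, ?_⟩
    rw [hg, div_zero] at hx
    rw [map_zero, zero_div]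
    exact Subtype.ext hx
  · refine ⟨h, g, ?_, ?_⟩
    · intro h0
      apply hg
      rw [← e, h0]
      rfl
    · apply Subtype.ext
      rw [hx, ← e, ← e]
      rfl

/-- An element outside the prime field generates a subfield over which the generator is
algebraic. -/
theorem alg_of_gens {t r : L} (ht : Gens p t) (hr : ∀ c : ZMod p, r ≠ algebraMap (ZMod p) L c) :
    IsAlgebraic (Fr p r) t := by
  obtain ⟨h, g, hg, hx⟩ := ht r
  have hg0 : g ≠ 0 := by
    rintro rfl
    simp at hg
  refine ⟨h.map (algebraMap (ZMod p) (Fr p r)) -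
    C (gr p r) * g.map (algebraMap (ZMod p) (Fr p r)), ?_, ?_⟩
  · intro h0
    obtain ⟨n, hn⟩ : ∃ n, g.coeff n ≠ 0 := by
      by_contra hcon
      push Not at hcon
      apply hg0
      ext n
      rw [hcon n, coeff_zero]
    have h1 := congrArg (fun f => coeff f n) h0
    simp only [coeff_sub, coeff_map, coeff_C_mul, coeff_zero] at h1
    have h2 : algebraMap (ZMod p) L (h.coeff n) = r * algebraMap (ZMod p) L (g.coeff n) := by
      have h3 := congrArg (fun z : Fr p r => (z : L)) (sub_eq_zero.mp h1)
      exact h3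
    apply hr (h.coeff n / g.coeff n)
    have h4 : algebraMap (ZMod p) L (g.coeff n) ≠ 0 := (_root_.map_ne_zero _).mpr hn
    rw [map_div₀, h2, mul_div_cancel_right₀ _ h4]
  · rw [map_sub, map_mul, aeval_map_algebraMap, aeval_map_algebraMap, aeval_C]
    have e : algebraMap (Fr p r) L (gr p r) = r := rfl
    rw [e, sub_eq_zero]
    conv_rhs => rw [hx]
    rw [div_mul_cancel₀ _ hg]

/-- A subring containing the subfield generated by `r` and `t` is everything. -/
theorem subring_top {t r : L} (ht : Gens p t)
    (hr : ∀ c : ZMod p, r ≠ algebraMap (ZMod p) L c) (S : Subring L)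
    (h1 : ∀ x : Fr p r, (x : L) ∈ S) (h2 : t ∈ S) (x : L) : x ∈ S := by
  have halg := alg_of_gens ht hr
  have h3 := IntermediateField.adjoin_simple_toSubalgebra_of_isAlgebraic halg
  have h4 : x ∈ IntermediateField.adjoin (Fr p r) {t} := by
    obtain ⟨h, g, hg, rfl⟩ := ht x
    have e : ∀ f : (ZMod p)[X], aeval t f ∈ IntermediateField.adjoin (Fr p r) {t} := by
      intro f
      rw [← aeval_map_algebraMap (Fr p r) t f]
      exact IntermediateField.algebra_adjoin_le_adjoin _ _
        (Polynomial.aeval_mem_adjoin_singleton _ _)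
    exact div_mem (e h) (e g)
  have h5 : x ∈ Algebra.adjoin (Fr p r) {t} := by
    rw [← h3]
    exact h4
  clear h4
  exact Algebra.adjoin_induction (p := fun x _ => x ∈ S)
    (fun x hx => by rw [Set.mem_singleton_iff.mp hx]; exact h2) (fun c => h1 c)
    (fun x y _ _ hx hy => S.add_mem hx hy) (fun x y _ _ hx hy => S.mul_mem hx hy) h5

end

end Pool.Agent.HuaFd69
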