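import Mathlib

/-!
The group of two by two matrices of determinant one over a field, and its actions.
-/

set_option autoImplicit false

namespace Pool.Agent.HuaFd69

open Matrix

/-- The special linear group of degree two. -/
abbrev GG (F : Type) [Field F] := Matrix.SpecialLinearGroup (Fin 2) F

section Elem

variable {F : Type} [Field F]

/-- Upper unipotent element. -/
def up (c : F) : GG F := ⟨!![1, c; 0, 1], by simp [Matrix.det_fin_two]⟩

/-- Lower unipotent element. -/
def lo (c : F) : GG F := ⟨!![1, 0; c, 1], by simp [Matrix.det_fin_two]⟩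

/-- Diagonal element. -/
def di (k : F) (hk : k ≠ 0) : GG F :=
  ⟨!![k, 0; 0, k⁻¹], by simp [Matrix.det_fin_two, mul_inv_cancel₀ hk]⟩

theorem up_add (a b : F) : up (a + b) = up a * up b := by
  ext i j
  fin_cases i <;> fin_cases j <;> simp [up, Matrix.mul_apply, Fin.sum_univ_two] <;> ring

theorem lo_add (a b : F) : lo (a + b) = lo a * lo b := by
  ext i j
  fin_cases i <;> fin_cases j <;> simp [lo, Matrix.mul_apply, Fin.sum_univ_two]

theorem up_zero : up (0 : F) = 1 := by
  ext i j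
  fin_cases i <;> fin_cases j <;> simp [up]

theorem lo_zero : lo (0 : F) = 1 := by
  ext i j
  fin_cases i <;> fin_cases j <;> simp [lo]

theorem up_comm (a b : F) : up a * up b = up b * up a := by
  rw [← up_add, ← up_add, add_comm]

theorem di_up (k : F) (hk : k ≠ 0) (c : F) : di k hk * up c = up (k ^ 2 * c) * di k hk := by
  ext i j
  fin_cases i <;> fin_cases j <;> simp [up, di, Matrix.mul_apply, Fin.sum_univ_two]
  field_simp

/-- Lower unipotent elements from one of them and the upper ones. -/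
theorem lo_eq (b : F) (hb : b ≠ 0) (r : F) :
    lo r = (up (-b⁻¹) * lo b * up (-b⁻¹)) * up (-(r / b ^ 2)) *
      (up (-b⁻¹) * lo b * up (-b⁻¹))⁻¹ := by
  rw [eq_mul_inv_iff_mul_eq]
  ext i j
  fin_cases i <;> fin_cases j <;> simp [up, lo, Matrix.mul_apply, Fin.sum_univ_two] <;>
    (try field_simp) <;> (try ring_nf) <;> (try simp)

theorem gen_two (g : GG F) (hc : g 1 0 ≠ 0) :
    g = up ((g 0 0 - 1) / g 1 0) * lo (g 1 0) * up ((g 1 1 - 1) / g 1 0) := by
  have hd : g 0 0 * g 1 1 - g 0 1 * g 1 0 = 1 := by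
    have h := g.det_coe
    rw [Matrix.det_fin_two] at h
    exact h
  ext i j
  fin_cases i <;> fin_cases j <;> simp [up, lo, Matrix.mul_apply, Fin.sum_univ_two]
  · field_simp
    ring
  · field_simp
    linear_combination -hd
  · field_simp
    ring

theorem top_of_up_lo (S : Subgroup (GG F)) (h1 : ∀ c, up c ∈ S) (h2 : ∀ c, lo c ∈ S) :
    S = ⊤ := by
  rw [eq_top_iff]
  intro g _
  by_cases hc : g 1 0 = 0
  · have h3 : (lo (1 : F) * g : GG F).1 1 0 ≠ 0 := by
      have hd : g 0 0 * g 1 1 - g 0 1 * g 1 0 = 1 := by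
        have h := g.det_coe
        rw [Matrix.det_fin_two] at h
        exact h
      have h4 : (lo (1 : F) * g : GG F).1 1 0 = g 0 0 := by
        simp [lo, Matrix.mul_apply, Fin.sum_univ_two, hc]
      rw [h4]
      intro h0
      rw [h0, hc] at hd
      simp at hd
    have h5 : lo 1 * g ∈ S := by
      rw [gen_two (lo 1 * g) h3]
      exact S.mul_mem (S.mul_mem (h1 _) (h2 _)) (h1 _)
    exact (S.mul_mem_cancel_left (h2 1)).mp h5
  · rw [gen_two g hc]
    exact S.mul_mem (S.mul_mem (h1 _) (h2 _)) (h1 _)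

theorem top_of_up (S : Subgroup (GG F)) (h1 : ∀ c, up c ∈ S) {b : F} (hb : b ≠ 0)
    (h2 : lo b ∈ S) : S = ⊤ := by
  refine top_of_up_lo S h1 fun r => ?_
  rw [lo_eq b hb r]
  have h3 : up (-b⁻¹) * lo b * up (-b⁻¹) ∈ S := S.mul_mem (S.mul_mem (h1 _) h2) (h1 _)
  exact S.mul_mem (S.mul_mem h3 (h1 _)) (S.inv_mem h3)

/-- The diagonal elements. -/
theorem di_eq (b : F) (hb : 1 + b ≠ 0) :
    di (1 + b)⁻¹ (inv_ne_zero hb) = lo b * up 1 * lo (-(b / (1 + b))) * up (-(1 + b)) := by
  ext i j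
  fin_cases i <;> fin_cases j <;>
    simp [up, lo, di, Matrix.mul_apply, Fin.sum_univ_two] <;> field_simp <;> ring

/-- Decomposition near the identity. -/
theorem near_eq (g : GG F) (ha : g 0 0 ≠ 0) :
    g = lo (g 1 0 / g 0 0) * di (g 0 0) ha * up (g 0 1 / g 0 0) := by
  have hd : g 0 0 * g 1 1 - g 0 1 * g 1 0 = 1 := by
    have h := g.det_coe
    rw [Matrix.det_fin_two] at h
    exact h
  ext i j
  fin_cases i <;> fin_cases j <;> simp [up, lo, di, Matrix.mul_apply, Fin.sum_univ_two]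
  · field_simp
  · field_simp
  · field_simp
    linear_combination hd

theorem conj_up (g : GG F) (x : F) :
    (up (-x) * g * up x : GG F).1 0 0 = g.1 0 0 - x * g.1 1 0 ∧
    (up (-x) * g * up x : GG F).1 0 1 =
      g.1 0 1 + x * (g.1 0 0 - 1) - x * (g.1 1 1 - 1) - x ^ 2 * g.1 1 0 ∧
    (up (-x) * g * up x : GG F).1 1 0 = g.1 1 0 ∧
    (up (-x) * g * up x : GG F).1 1 1 = g.1 1 1 + x * g.1 1 0 := by
  refine ⟨?_, ?_, ?_, ?_⟩ <;>
    simp [up, Matrix.mul_apply, Fin.sum_univ_two, Matrix.vecMul, dotProduct] <;> ring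

end Elem

end Pool.Agent.HuaFd69
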