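import Mathlib
import Pool.Agent.HuaFd69.Grp

/-!
Elements of finite degree with an open stabiliser are fixed.
-/

set_option autoImplicit false

namespace Pool.Agent.HuaFd69

open Matrix

section Act

variable {F : Type} [Field F] {M : Type} [AddCommGroup M] (ρ : GG F →* AddMonoid.End M)

theorem rho_mul (a b : GG F) (X : M) : ρ (a * b) X = ρ a (ρ b X) := by
  rw [map_mul]; rfl

theorem rho_one (X : M) : ρ 1 X = X := by
  rw [map_one]; rfl

/-- The stabiliser. -/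
def stab (X : M) : Subgroup (GG F) where
  carrier := {g | ρ g X = X}
  mul_mem' := by
    intro a b ha hb
    change ρ (a * b) X = X
    have ha' : ρ a X = X := ha
    have hb' : ρ b X = X := hb
    rw [rho_mul, hb', ha']
  one_mem' := rho_one ρ X
  inv_mem' := by
    intro a ha
    have ha' : ρ a X = X := ha
    change ρ a⁻¹ X = X
    have h : ρ a⁻¹ (ρ a X) = X := by rw [← rho_mul, inv_mul_cancel, rho_one]
    rwa [ha'] at h

theorem mem_stab {X : M} {g : GG F} : g ∈ stab ρ X ↔ ρ g X = X := Iff.rfl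

/-- The difference operator. -/
def Dd (c : F) (X : M) : M := ρ (up c) X - X

/-- The iterated difference operator. -/
def Ds (l : List F) (X : M) : M := l.foldr (Dd ρ) X

theorem Ds_cons (c : F) (l : List F) (X : M) :
    Ds ρ (c :: l) X = ρ (up c) (Ds ρ l X) - Ds ρ l X := rfl

theorem up_Ds (a : F) (l : List F) (X : M) :
    ρ (up a) (Ds ρ l X) = Ds ρ l (ρ (up a) X) := by
  induction l with
  | nil => rfl
  | cons c l ih =>
    rw [Ds_cons, Ds_cons, map_sub, ← rho_mul, up_comm, rho_mul, ih]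

theorem di_Ds (k : F) (hk : k ≠ 0) (l : List F) (X : M) :
    ρ (di k hk) (Ds ρ l X) = Ds ρ (l.map fun c => k ^ 2 * c) (ρ (di k hk) X) := by
  induction l with
  | nil => rfl
  | cons c l ih =>
    rw [Ds_cons, List.map_cons, Ds_cons, map_sub, ← rho_mul, di_up, rho_mul, ih]

variable (O : Subring F) (s : F)

/-- The multiples of `s ^ n`. -/
def Ball (n : ℕ) (x : F) : Prop := ∃ r ∈ O, x = s ^ n * r

variable {O s}

theorem Ball.add {n : ℕ} {x y : F} (hx : Ball O s n x) (hy : Ball O s n y) :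
    Ball O s n (x + y) := by
  obtain ⟨r, hr, rfl⟩ := hx
  obtain ⟨q, hq, rfl⟩ := hy
  exact ⟨r + q, O.add_mem hr hq, by ring⟩

theorem Ball.neg {n : ℕ} {x : F} (hx : Ball O s n x) : Ball O s n (-x) := by
  obtain ⟨r, hr, rfl⟩ := hx
  exact ⟨-r, O.neg_mem hr, by ring⟩

theorem Ball.sub {n : ℕ} {x y : F} (hx : Ball O s n x) (hy : Ball O s n y) :
    Ball O s n (x - y) := by
  rw [sub_eq_add_neg]
  exact hx.add hy.neg

theorem Ball.mul {n : ℕ} {x y : F} (hx : x ∈ O) (hy : Ball O s n y) : Ball O s n (x * y) := by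
  obtain ⟨r, hr, rfl⟩ := hy
  exact ⟨x * r, O.mul_mem hx hr, by ring⟩

theorem Ball.mono (hs : s ∈ O) {m n : ℕ} (h : m ≤ n) {x : F} (hx : Ball O s n x) :
    Ball O s m x := by
  obtain ⟨r, hr, rfl⟩ := hx
  refine ⟨s ^ (n - m) * r, O.mul_mem (O.pow_mem hs _) hr, ?_⟩
  rw [← mul_assoc, ← pow_add, Nat.add_sub_cancel' h]

theorem Ball.mem (hs : s ∈ O) {n : ℕ} {x : F} (hx : Ball O s n x) : x ∈ O := by
  obtain ⟨r, hr, rfl⟩ := hx
  exact O.mul_mem (O.pow_mem hs _) hr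

variable (O s)

/-- `O` behaves like the integers of a place with parameter `s`. -/
structure Near : Prop where
  mem : s ∈ O
  ne : s ≠ 0
  unit : ∀ x ∈ O, 1 + s * x ≠ 0 ∧ (1 + s * x)⁻¹ ∈ O
  abs : ∀ x : F, ∃ n : ℕ, s ^ n * x ∈ O

variable {O s}

theorem Near.small (hO : Near O s) (x : F) (n : ℕ) :
    ∃ m : ℕ, ∀ k, m ≤ k → ∀ y, Ball O s k y → Ball O s n (x * y) := by
  obtain ⟨j, hj⟩ := hO.abs x
  refine ⟨n + j, fun k hk y hy => ?_⟩
  obtain ⟨r, hr, rfl⟩ := hy.mono hO.mem hk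
  exact ⟨s ^ j * x * r, O.mul_mem hj hr, by rw [pow_add]; ring⟩

variable (O s)

/-- Elements of the group close to the identity. -/
def Gam (n : ℕ) (g : GG F) : Prop :=
  Ball O s n (g.1 0 0 - 1) ∧ Ball O s n (g.1 0 1) ∧ Ball O s n (g.1 1 0) ∧
    Ball O s n (g.1 1 1 - 1)

/-- The stabiliser is open. -/
def Op (X : M) : Prop := ∃ n : ℕ, ∀ g : GG F, Gam O s n g → ρ g X = X

variable {O s}

theorem Gam.mono (hs : s ∈ O) {m n : ℕ} (h : m ≤ n) {g : GG F} (hg : Gam O s n g) :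
    Gam O s m g :=
  ⟨hg.1.mono hs h, hg.2.1.mono hs h, hg.2.2.1.mono hs h, hg.2.2.2.mono hs h⟩

theorem Op.sub (hs : s ∈ O) {X Y : M} (hX : Op ρ O s X) (hY : Op ρ O s Y) :
    Op ρ O s (X - Y) := by
  obtain ⟨m, hm⟩ := hX
  obtain ⟨n, hn⟩ := hY
  refine ⟨max m n, fun g hg => ?_⟩
  rw [map_sub, hm g (hg.mono hs (le_max_left _ _)), hn g (hg.mono hs (le_max_right _ _))]

theorem Op.up (hO : Near O s) {X : M} (hX : Op ρ O s X) (x : F) :
    Op ρ O s (ρ (up x) X) := by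
  obtain ⟨n, hn⟩ := hX
  obtain ⟨m1, h1⟩ := hO.small x n
  obtain ⟨m2, h2⟩ := hO.small (x ^ 2) n
  refine ⟨max n (max m1 m2), fun g hg => ?_⟩
  have l0 : n ≤ max n (max m1 m2) := le_max_left _ _
  have l1 : m1 ≤ max n (max m1 m2) := (le_max_left _ _).trans (le_max_right _ _)
  have l2 : m2 ≤ max n (max m1 m2) := (le_max_right _ _).trans (le_max_right _ _)
  obtain ⟨ha, hb, hc, hd⟩ := hg
  obtain ⟨e1, e2, e3, e4⟩ := conj_up g x
  have h3 : ρ (Pool.Agent.HuaFd69.up (-x) * g * Pool.Agent.HuaFd69.up x) X = X := by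
    refine hn _ ⟨?_, ?_, ?_, ?_⟩
    · rw [e1, sub_right_comm]
      exact (ha.mono hO.mem l0).sub (h1 _ l1 _ hc)
    · rw [e2]
      exact (((hb.mono hO.mem l0).add (h1 _ l1 _ ha)).sub (h1 _ l1 _ hd)).sub (h2 _ l2 _ hc)
    · rw [e3]
      exact hc.mono hO.mem l0
    · rw [e4, add_sub_right_comm]
      exact (hd.mono hO.mem l0).add (h1 _ l1 _ hc)
  have h4 : ρ (Pool.Agent.HuaFd69.up x)
      (ρ (Pool.Agent.HuaFd69.up (-x) * g * Pool.Agent.HuaFd69.up x) X) =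
      ρ g (ρ (Pool.Agent.HuaFd69.up x) X) := by
    rw [← rho_mul, ← rho_mul]
    congr 1
    have h5 : Pool.Agent.HuaFd69.up x * Pool.Agent.HuaFd69.up (-x) = 1 := by
      rw [← up_add, add_neg_cancel, up_zero]
    rw [← mul_assoc, ← mul_assoc, h5, one_mul]
  rw [← h4, h3]

theorem Op.Ds (hO : Near O s) {X : M} (hX : Op ρ O s X) (l : List F) :
    Op ρ O s (Ds ρ l X) := by
  induction l with
  | nil => exact hX
  | cons c l ih => exact (ih.up ρ hO c).sub ρ hO.mem ih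

theorem op_base (hO : Near O s) {X : M} (h1 : ∀ x ∈ O, ρ (up x) X = X)
    (h2 : ∀ x ∈ O, ρ (lo (s ^ 2 * x)) X = X) : Op ρ O s X := by
  refine ⟨2, fun g hg => ?_⟩
  obtain ⟨⟨a, ha, ha'⟩, hb, ⟨c, hc, hc'⟩, hd⟩ := hg
  obtain ⟨hu, hi⟩ := hO.unit (s * a) (O.mul_mem hO.mem ha)
  have ha2 : g.1 0 0 = 1 + s * (s * a) := by
    have : g.1 0 0 = (g.1 0 0 - 1) + 1 := by ring
    rw [this, ha']
    ring
  have hne : g.1 0 0 ≠ 0 := by rw [ha2]; exact hu
  have hinv : (g.1 0 0)⁻¹ ∈ O := by rw [ha2]; exact hi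
  have hmem : g.1 0 0 ∈ O := by
    rw [ha2]
    exact O.add_mem O.one_mem (O.mul_mem hO.mem (O.mul_mem hO.mem ha))
  have m1 : lo (g.1 1 0 / g.1 0 0) ∈ stab ρ X := by
    rw [mem_stab, div_eq_mul_inv, hc', mul_assoc]
    exact h2 _ (O.mul_mem hc hinv)
  have m2 : up (g.1 0 1 / g.1 0 0) ∈ stab ρ X := by
    rw [mem_stab, div_eq_mul_inv]
    exact h1 _ (O.mul_mem (hb.mem hO.mem) hinv)
  have m3 : di (g.1 0 0) hne ∈ stab ρ X := by
    have hb1 : 1 + (-(s ^ 2 * (a * (g.1 0 0)⁻¹))) = (g.1 0 0)⁻¹ := by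
      have h3 : s ^ 2 * (a * (g.1 0 0)⁻¹) = (g.1 0 0 - 1) * (g.1 0 0)⁻¹ := by
        rw [ha']
        ring
      rw [h3, sub_mul, mul_inv_cancel₀ hne]
      ring
    set b := -(s ^ 2 * (a * (g.1 0 0)⁻¹)) with hbdef
    have hb2 : 1 + b ≠ 0 := by rw [hb1]; exact inv_ne_zero hne
    have hb3 : (1 + b)⁻¹ = g.1 0 0 := by rw [hb1, inv_inv]
    have hbO : ∃ r ∈ O, b = s ^ 2 * r :=
      ⟨-(a * (g.1 0 0)⁻¹), O.neg_mem (O.mul_mem ha hinv), by rw [hbdef]; ring⟩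
    obtain ⟨r, hr, hbr⟩ := hbO
    have h4 : di (g.1 0 0) hne = di (1 + b)⁻¹ (inv_ne_zero hb2) := by
      congr 1
      exact hb3.symm
    rw [h4, di_eq b hb2]
    refine (stab ρ X).mul_mem ((stab ρ X).mul_mem ((stab ρ X).mul_mem ?_ ?_) ?_) ?_
    · rw [mem_stab, hbr]
      exact h2 _ hr
    · rw [mem_stab]
      exact h1 _ O.one_mem
    · rw [mem_stab, div_eq_mul_inv, hb3, hbr]
      have h5 : -(s ^ 2 * r * g.1 0 0) = s ^ 2 * (-(r * g.1 0 0)) := by ring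
      rw [h5]
      exact h2 _ (O.neg_mem (O.mul_mem hr hmem))
    · rw [mem_stab, hb1]
      exact h1 _ (O.neg_mem hinv)
  have h6 := near_eq g hne
  have h7 : g ∈ stab ρ X := by
    rw [h6]
    exact (stab ρ X).mul_mem ((stab ρ X).mul_mem m1 m3) m2
  exact h7

/-- An element fixed by all upper unipotent elements with open stabiliser is fixed. -/
theorem fixed_of_up (hO : Near O s) {X : M} (hX : Op ρ O s X) (h : ∀ c, ρ (up c) X = X)
    (g : GG F) : ρ g X = X := by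
  obtain ⟨n, hn⟩ := hX
  have h1 : lo (s ^ n) ∈ stab ρ X := by
    rw [mem_stab]
    refine hn _ ⟨?_, ?_, ?_, ?_⟩
    · exact ⟨0, O.zero_mem, by simp [lo]⟩
    · exact ⟨0, O.zero_mem, by simp [lo]⟩
    · exact ⟨1, O.one_mem, by simp [lo]⟩
    · exact ⟨0, O.zero_mem, by simp [lo]⟩
  have h2 := top_of_up (stab ρ X) (fun c => h c) (pow_ne_zero n hO.ne) h1
  have h3 : g ∈ stab ρ X := by rw [h2]; trivial
  exact h3

theorem di_fix {X : M} (h1 : ∀ x ∈ O, ρ (up x) X = X)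
    (h2 : ∀ x ∈ O, ρ (lo (s ^ 2 * x)) X = X) {r : F} (hr : r ∈ O) (hb : 1 + s ^ 2 * r ≠ 0)
    (hi : (1 + s ^ 2 * r)⁻¹ ∈ O) (hs : s ∈ O) :
    ρ (di (1 + s ^ 2 * r)⁻¹ (inv_ne_zero hb)) X = X := by
  rw [← mem_stab, di_eq _ hb]
  refine (stab ρ X).mul_mem ((stab ρ X).mul_mem ((stab ρ X).mul_mem ?_ ?_) ?_) ?_
  · rw [mem_stab]
    exact h2 _ hr
  · rw [mem_stab]
    exact h1 _ O.one_mem
  · rw [mem_stab, div_eq_mul_inv]
    have h5 : -(s ^ 2 * r * (1 + s ^ 2 * r)⁻¹) = s ^ 2 * (-(r * (1 + s ^ 2 * r)⁻¹)) := by ring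
    rw [h5]
    exact h2 _ (O.neg_mem (O.mul_mem hr hi))
  · rw [mem_stab]
    exact h1 _ (O.neg_mem (O.add_mem O.one_mem (O.mul_mem (O.pow_mem hs 2) hr)))

theorem Near.list (hO : Near O s) (l : List F) :
    ∃ m : ℕ, ∀ j, m ≤ j → ∀ c ∈ l, s ^ j * c ∈ O := by
  induction l with
  | nil => exact ⟨0, fun j _ c hc => by simp at hc⟩
  | cons a l ih =>
    obtain ⟨m, hm⟩ := ih
    obtain ⟨n, hn⟩ := hO.abs a
    refine ⟨max m n, fun j hj c hc => ?_⟩
    rcases List.mem_cons.mp hc with rfl | hc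
    · have h1 : n ≤ j := (le_max_right _ _).trans hj
      have h2 : s ^ j * c = s ^ (j - n) * (s ^ n * c) := by
        rw [← mul_assoc, ← pow_add, Nat.sub_add_cancel h1]
      rw [h2]
      exact O.mul_mem (O.pow_mem hO.mem _) hn
    · exact hm j ((le_max_left _ _).trans hj) c hc

theorem Near.exists_pow (hO : Near O s) (m : ℕ) : ∃ j, m ≤ j ∧ 2 + s ^ j ≠ 0 := by
  by_contra hcon
  push Not at hcon
  have h1 := hcon m le_rfl
  have h2 := hcon (m + 1) (Nat.le_succ m)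
  have h3 : s ^ m * (s - 1) = 0 := by
    rw [pow_succ] at h2
    linear_combination h2 - h1
  rcases mul_eq_zero.mp h3 with h4 | h4
  · exact pow_ne_zero m hO.ne h4
  · apply (hO.unit (-1) (O.neg_mem O.one_mem)).1
    have : s = 1 := sub_eq_zero.mp h4
    rw [this]
    ring

theorem Ds_scale {X : M} (h1 : ∀ x ∈ O, ρ (up x) X = X) (q : F) (l : List F)
    (hl : ∀ c ∈ l, (q - 1) * c ∈ O) : Ds ρ (l.map fun c => q * c) X = Ds ρ l X := by
  induction l with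
  | nil => rfl
  | cons c l ih =>
    have h2 : q * c = c + (q - 1) * c := by ring
    rw [List.map_cons, Ds_cons, Ds_cons, ih fun c hc => hl c (List.mem_cons_of_mem _ hc), h2,
      up_add, rho_mul, up_Ds ρ ((q - 1) * c), h1 _ (hl c List.mem_cons_self)]

/-- Descent of the degree. -/
theorem descent (hO : Near O s) {X : M} (h1 : ∀ x ∈ O, ρ (up x) X = X)
    (h2 : ∀ x ∈ O, ρ (lo (s ^ 2 * x)) X = X) (d : ℕ)
    (hd : ∀ l : List F, l.length = d + 2 → Ds ρ l X = 0) :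
    ∀ l : List F, l.length = d + 1 → Ds ρ l X = 0 := by
  have hop := op_base ρ hO h1 h2
  have hfix : ∀ l : List F, l.length = d + 1 → ∀ g, ρ g (Ds ρ l X) = Ds ρ l X := by
    intro l hl
    refine fixed_of_up ρ hO (hop.Ds ρ hO l) fun c => ?_
    have h3 := hd (c :: l) (by rw [List.length_cons, hl])
    rw [Ds_cons] at h3
    exact sub_eq_zero.mp h3
  intro l hl
  obtain ⟨c', l', rfl⟩ : ∃ c' l', l = c' :: l' := by
    cases l with
    | nil => simp at hl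
    | cons c' l' => exact ⟨c', l', rfl⟩
  have hl' : l'.length = d := by
    rw [List.length_cons] at hl
    omega
  obtain ⟨m, hm⟩ := hO.list l'
  obtain ⟨j, hj, hj2⟩ := hO.exists_pow (max m 2)
  have hjm : m ≤ j := (le_max_left _ _).trans hj
  have hj2' : 2 ≤ j := (le_max_right _ _).trans hj
  have hr : s ^ (j - 2) ∈ O := O.pow_mem hO.mem _
  have hsj : s ^ j = s ^ 2 * s ^ (j - 2) := by
    rw [← pow_add, Nat.add_sub_cancel' hj2']
  obtain ⟨hu, hi⟩ := hO.unit (s * s ^ (j - 2)) (O.mul_mem hO.mem hr)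
  have e1 : 1 + s * (s * s ^ (j - 2)) = 1 + s ^ 2 * s ^ (j - 2) := by ring
  rw [e1] at hu hi
  have hdi := di_fix ρ h1 h2 hr hu hi hO.mem
  set k : F := (1 + s ^ 2 * s ^ (j - 2))⁻¹ with hk
  have hk0 : k ≠ 0 := inv_ne_zero hu
  have hk1 : k * (1 + s ^ j) = 1 := by
    rw [hk, hsj]
    exact inv_mul_cancel₀ hu
  have hz : k ^ 2 - 1 = -(2 + s ^ j) * k ^ 2 * s ^ j := by
    linear_combination (k * (1 + s ^ j) + 1) * hk1
  have hz0 : k ^ 2 - 1 ≠ 0 := by
    rw [hz]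
    exact mul_ne_zero (mul_ne_zero (neg_ne_zero.mpr hj2) (pow_ne_zero _ hk0))
      (pow_ne_zero _ hO.ne)
  have hmem : ∀ c ∈ l', (k ^ 2 - 1) * c ∈ O := by
    intro c hc
    rw [hz, mul_assoc]
    refine O.mul_mem (O.mul_mem (O.neg_mem (O.add_mem ?_ (O.pow_mem hO.mem _)))
      (O.pow_mem hi 2)) (hm j hjm c hc)
    have : (2 : F) = 1 + 1 := by norm_num
    rw [this]
    exact O.add_mem O.one_mem O.one_mem
  have h5 := hfix (c' / (k ^ 2 - 1) :: l') (by rw [List.length_cons, hl']) (di k hk0)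
  rw [di_Ds, hdi, List.map_cons, Ds_cons, Ds_scale ρ h1 _ _ hmem, Ds_cons] at h5
  have h6 : k ^ 2 * (c' / (k ^ 2 - 1)) = c' + c' / (k ^ 2 - 1) := by
    field_simp
    ring
  have h7 := hfix (c' / (k ^ 2 - 1) :: l') (by rw [List.length_cons, hl']) (up c')
  rw [Ds_cons, map_sub, ← rho_mul, ← up_add] at h7
  rw [h6] at h5
  rw [Ds_cons]
  have h8 := sub_left_injective h5
  rw [h8] at h7
  have h9 := sub_right_injective h7
  rw [h9, sub_self]

/-- **Finite degree and an open stabiliser imply invariance.** -/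
theorem fixed_of_finDeg (hO : Near O s) {X : M} (h1 : ∀ x ∈ O, ρ (up x) X = X)
    (h2 : ∀ x ∈ O, ρ (lo (s ^ 2 * x)) X = X) (N : ℕ)
    (hN : ∀ l : List F, l.length = N + 1 → Ds ρ l X = 0) (g : GG F) : ρ g X = X := by
  induction N with
  | zero =>
    refine fixed_of_up ρ hO (op_base ρ hO h1 h2) (fun c => ?_) g
    have h3 := hN [c] rfl
    rw [Ds_cons] at h3
    exact sub_eq_zero.mp h3
  | succ n ih => exact ih (descent ρ hO h1 h2 n hN)

end Act

end Pool.Agent.HuaFd69
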