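import Mathlib
import Pool.Agent.HuaFd69.Defs

/-!
Functions modulo affine functions, and the action of translations on them.
-/

set_option autoImplicit false

namespace Pool.Agent.HuaFd69

open Pool.Agent.HuaVal

section

variable (A : Type) [AddCommGroup A]

/-- The group of affine functions. -/
def affS : AddSubgroup (A → A) where
  carrier := {F | Aff F}
  zero_mem' := ⟨0, 0, fun u => by simp⟩
  add_mem' := by
    rintro F G ⟨c, n, h⟩ ⟨d, m, h'⟩
    refine ⟨c + d, n + m, fun u => ?_⟩
    rw [Pi.add_apply, h, h', add_smul]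
    abel
  neg_mem' := by
    rintro F ⟨c, n, h⟩
    refine ⟨-c, -n, fun u => ?_⟩
    rw [Pi.neg_apply, h, neg_smul]
    abel

/-- Functions modulo affine functions. -/
abbrev QQ : Type := (A → A) ⧸ affS A

variable {A}

/-- Translation of functions. -/
def Tf (c : A) : (A → A) →+ (A → A) where
  toFun F := fun u => F (u + c)
  map_zero' := rfl
  map_add' _ _ := rfl

theorem Tf_aff (c : A) : affS A ≤ (affS A).comap (Tf c) := by
  rintro F ⟨d, n, h⟩
  refine ⟨d + n • c, n, fun u => ?_⟩
  change F (u + c) = _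
  rw [h, smul_add]
  abel

/-- Translation on the quotient. -/
def Tq (c : A) : QQ A →+ QQ A := QuotientAddGroup.map _ _ (Tf c) (Tf_aff c)

/-- The class of a function. -/
def cl (F : A → A) : QQ A := QuotientAddGroup.mk F

theorem cl_add (F G : A → A) : cl (F + G) = cl F + cl G := rfl

theorem cl_sub (F G : A → A) : cl (F - G) = cl F - cl G := rfl

theorem cl_surj (q : QQ A) : ∃ F, cl F = q := QuotientAddGroup.mk_surjective q

theorem cl_eq_zero {F : A → A} : cl F = 0 ↔ Aff F := by
  have h : cl F = 0 ↔ F ∈ affS A := QuotientAddGroup.eq_zero_iff F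
  rw [h]
  rfl

theorem Tq_cl (c : A) (F : A → A) : Tq c (cl F) = cl (Tf c F) := rfl

theorem Tq_add (c d : A) (q : QQ A) : Tq (c + d) q = Tq c (Tq d q) := by
  obtain ⟨F, rfl⟩ := cl_surj q
  rw [Tq_cl, Tq_cl, Tq_cl]
  congr 1
  funext u
  change F (u + (c + d)) = F (u + c + d)
  rw [add_assoc]

theorem Tq_zero (q : QQ A) : Tq 0 q = q := by
  obtain ⟨F, rfl⟩ := cl_surj q
  rw [Tq_cl]
  congr 1
  funext u
  change F (u + 0) = F u
  rw [add_zero]

theorem Tq_comm (c d : A) (q : QQ A) : Tq c (Tq d q) = Tq d (Tq c q) := by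
  rw [← Tq_add, ← Tq_add, add_comm]

theorem cl_dl (c : A) (F : A → A) : cl (dl c F) = Tq c (cl F) - cl F := rfl

/-- The periods of a class. -/
def Pd (q : QQ A) : AddSubgroup A where
  carrier := {c | Tq c q = q}
  zero_mem' := Tq_zero q
  add_mem' := by
    intro a b ha hb
    have ha' : Tq a q = q := ha
    have hb' : Tq b q = q := hb
    change Tq (a + b) q = q
    rw [Tq_add, hb', ha']
  neg_mem' := by
    intro a ha
    have ha' : Tq a q = q := ha
    change Tq (-a) q = q
    have h : Tq (-a) (Tq a q) = q := by rw [← Tq_add, neg_add_cancel, Tq_zero]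
    rwa [ha'] at h

theorem mem_Pd {q : QQ A} {c : A} : c ∈ Pd q ↔ Tq c q = q := Iff.rfl

end

section Vk

variable {A : Type} [AddCommGroup A] {J : A → A → A} (hJ : JSys J) {e : A} (he : e ≠ 0)

/-- The action of `H k` on functions. -/
noncomputable def Vf (k : A) : (A → A) →+ (A → A) where
  toFun F := fun u => H J e k (F (H J e (J e k) u))
  map_zero' := by
    funext u
    exact H_zero_right hJ he k
  map_add' F G := by
    funext u
    exact H_add hJ he k _ _

include hJ he in
theorem H_nsmul (k : A) (n : ℤ) (u : A) : H J e k (n • u) = n • H J e k u :=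
  map_zsmul (Hm hJ he k) n u

theorem Vf_aff {k : A} (hk : k ≠ 0) : affS A ≤ (affS A).comap (Vf hJ he k) := by
  rintro F ⟨d, n, h⟩
  refine ⟨H J e k d, n, fun u => ?_⟩
  change H J e k (F (H J e (J e k) u)) = _
  rw [h, H_add hJ he, H_nsmul hJ he, H_right_inv hJ he hk]

/-- The action on the quotient. -/
noncomputable def Vq {k : A} (hk : k ≠ 0) : QQ A →+ QQ A :=
  QuotientAddGroup.map _ _ (Vf hJ he k) (Vf_aff hJ he hk)

theorem Vq_cl {k : A} (hk : k ≠ 0) (F : A → A) :
    Vq hJ he hk (cl F) = cl (Vf hJ he k F) := rfl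

theorem Vq_Tq {k : A} (hk : k ≠ 0) (c : A) (q : QQ A) :
    Vq hJ he hk (Tq c q) = Tq (H J e k c) (Vq hJ he hk q) := by
  obtain ⟨F, rfl⟩ := cl_surj q
  rw [Tq_cl, Vq_cl, Vq_cl, Tq_cl]
  congr 1
  funext u
  change H J e k (F (H J e (J e k) u + c)) = H J e k (F (H J e (J e k) (u + H J e k c)))
  rw [H_add hJ he, H_left_inv hJ he hk]

end Vk

end Pool.Agent.HuaFd69
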