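import Mathlib
import Pool.Agent.HuaFd69.Quo

/-!
Periods of the first differences of the square.
-/

set_option autoImplicit false

open Polynomial

namespace Pool.Agent.HuaFd69

open Pool.Agent.HuaVal

section

variable {A : Type} [AddCommGroup A] {J : A → A → A} (hJ : JSys J)
variable {L : Type} [Field L] {φ : L →+ A} (hφ : FP J φ)

include hφ in
theorem FP.ne {x : L} (hx : x ≠ 0) : φ x ≠ 0 := by
  intro h
  apply hx
  apply hφ.inj
  rw [h, map_zero]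

variable (J φ)

/-- The function `u ↦ U_u y`. -/
noncomputable def ff (y : L) : A → A := fun u => H J (φ 1) u (φ y)

variable {J φ}

include hφ in
theorem FP.J1 {x : L} (hx : x ≠ 0) : J (φ 1) (φ x) = φ x⁻¹ := by
  rw [hφ.J 1 x one_ne_zero hx]
  congr 1
  ring

include hφ in
theorem FP.Hu {x : L} (hx : x ≠ 0) {y : L} (hy : y ≠ 0) :
    H J (φ 1) (φ x) (φ y) = φ (x * x * y) := by
  rw [H_of_ne (hφ.ne hx), hφ.J1 hy, hφ.J x y⁻¹ hx (inv_ne_zero hy), inv_inv]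

include hJ hφ in
theorem FP.Hu' (x y : L) : H J (φ 1) (φ x) (φ y) = φ (x * x * y) := by
  by_cases hx : x = 0
  · subst hx
    rw [map_zero, H_zero_left, zero_mul, zero_mul, map_zero]
  by_cases hy : y = 0
  · subst hy
    rw [map_zero, H_zero_right hJ (hφ.ne one_ne_zero), mul_zero, map_zero]
  exact hφ.Hu hx hy

include hJ hφ in
theorem ff_add (y y' : L) : ff J φ (y + y') = ff J φ y + ff J φ y' := by
  funext u
  change H J (φ 1) u (φ (y + y')) = _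
  rw [map_add, H_add hJ (hφ.ne one_ne_zero)]
  rfl

include hJ hφ in
theorem ff_per {y : L} (hy : y ≠ 0) : Tq (φ y⁻¹) (cl (ff J φ y)) = cl (ff J φ y) := by
  rw [← sub_eq_zero, ← cl_dl, cl_eq_zero]
  refine ⟨φ y⁻¹, 2, fun u => ?_⟩
  have h := H_add_i hJ (hφ.ne one_ne_zero) u (φ y) (hφ.ne hy)
  rw [hφ.J1 hy] at h
  change H J (φ 1) (u + φ y⁻¹) (φ y) - H J (φ 1) u (φ y) = _
  rw [h, two_zsmul]
  abel

include hJ hφ in
theorem ff_U {k : L} (hk : k ≠ 0) (y : L) :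
    Vq hJ (hφ.ne one_ne_zero) (hφ.ne hk) (cl (ff J φ y)) = cl (ff J φ (y / k ^ 2)) := by
  rw [Vq_cl]
  congr 1
  funext u
  have he := hφ.ne (one_ne_zero (α := L))
  change H J (φ 1) (φ k) (H J (φ 1) (H J (φ 1) (J (φ 1) (φ k)) u) (φ y)) =
    H J (φ 1) u (φ (y / k ^ 2))
  rw [H_H' hJ he, hφ.J1 hk, hφ.Hu' hJ k⁻¹ y, ← hφ.J1 hk, H_right_inv hJ he (hφ.ne hk)]
  congr 2
  field_simp

/-- The class of the first difference of the square. -/
noncomputable def om (J : A → A → A) (φ : L →+ A) (t : L) : QQ A :=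
  Tq (φ t) (cl (ff J φ 1)) - cl (ff J φ 1)

include hJ hφ in
/-- First period relation. -/
theorem E2 {e : L} (he : e ≠ 0) : Tq (φ e⁻¹) (om J φ e) = om J φ e := by
  have h1 : Tq (φ 1) (cl (ff J φ 1)) = cl (ff J φ 1) := by
    have h := ff_per hJ hφ (one_ne_zero (α := L))
    rwa [inv_one] at h
  by_cases hm : 1 + e = 0
  · have h2 : e = -1 := by linear_combination hm
    have h3 : om J φ e = 0 := by
      rw [om, h2, map_neg, sub_eq_zero]
      exact (Pd (cl (ff J φ 1))).neg_mem h1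
    rw [h3, map_zero]
  set a : L := (1 + e)⁻¹ with ha
  set b : L := e * (1 + e)⁻¹ with hb
  have ha0 : a ≠ 0 := inv_ne_zero hm
  have hb0 : b ≠ 0 := mul_ne_zero he (inv_ne_zero hm)
  have hab : a + b = 1 := by
    rw [ha, hb]
    field_simp
  have hai : a⁻¹ = 1 + e := by rw [ha, inv_inv]
  have hbi : b⁻¹ = 1 + e⁻¹ := by
    rw [hb]
    field_simp
    ring
  have hg : cl (ff J φ 1) = cl (ff J φ a) + cl (ff J φ b) := by
    rw [← cl_add, ← ff_add hJ hφ, hab]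
  have pa := ff_per hJ hφ ha0
  have pb := ff_per hJ hφ hb0
  rw [hai] at pa
  rw [hbi] at pb
  -- the double difference
  have h4 : Tq (φ (1 + e⁻¹)) (Tq (φ (1 + e)) (cl (ff J φ 1)) - cl (ff J φ 1)) =
      Tq (φ (1 + e)) (cl (ff J φ 1)) - cl (ff J φ 1) := by
    have h41 : Tq (φ (1 + e)) (cl (ff J φ 1)) - cl (ff J φ 1) =
        Tq (φ (1 + e)) (cl (ff J φ b)) - cl (ff J φ b) := by
      rw [hg, map_add (Tq (φ (1 + e))), pa]
      abel
    rw [h41, map_sub (Tq (φ (1 + e⁻¹))), Tq_comm, pb]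
  have h5 : Tq (φ (1 + e)) (cl (ff J φ 1)) = Tq (φ e) (cl (ff J φ 1)) := by
    rw [map_add, add_comm (φ 1), Tq_add, h1]
  have h6 : om J φ e = Tq (φ (1 + e)) (cl (ff J φ 1)) - cl (ff J φ 1) := by
    rw [h5]
    rfl
  have h7 : Tq (φ 1) (om J φ e) = om J φ e := by
    rw [om, map_sub, Tq_comm, h1]
  rw [← h6, map_add, add_comm (φ 1), Tq_add, h7] at h4
  exact h4

include hJ hφ in
/-- Invariance under the torus element attached to `t`. -/
theorem om_torus {t : L} (ht : t ≠ 0) (_ht1 : t - 1 ≠ 0) {k : L} (hk : k ≠ 0)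
    (hkt : k * (t - 1) = t) :
    Vq hJ (hφ.ne one_ne_zero) (hφ.ne hk) (om J φ t) = om J φ t := by
  have he := hφ.ne (one_ne_zero (α := L))
  set l : L := k⁻¹ with hl
  have hl0 : l ≠ 0 := inv_ne_zero hk
  have hlt : l = 1 - t⁻¹ := by
    rw [hl]
    field_simp
    linear_combination -hkt
  have e1 : l + t⁻¹ = 1 := by rw [hlt]; ring
  have e2 : t + l⁻¹ = t * l⁻¹ := by
    rw [hl, inv_inv]
    linear_combination -hkt
  have e3 : l ^ 2 + l * t⁻¹ = l := by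
    rw [hlt]; ring
  have e4 : t * l⁻¹ + (l ^ 2)⁻¹ = t * (l ^ 2)⁻¹ := by
    have : (l ^ 2)⁻¹ = l⁻¹ * l⁻¹ := by rw [sq, mul_inv]
    rw [this]
    linear_combination l⁻¹ * e2
  have p1 := ff_per hJ hφ (inv_ne_zero ht)
  rw [inv_inv] at p1
  have p2 := ff_per hJ hφ hl0
  have p3 := ff_per hJ hφ (mul_ne_zero hl0 (inv_ne_zero ht))
  have e5 : (l * t⁻¹)⁻¹ = t * l⁻¹ := by
    field_simp
  rw [e5] at p3
  have p4 := ff_per hJ hφ (pow_ne_zero 2 hl0)
  have s1 : om J φ t = Tq (φ t) (cl (ff J φ l)) - cl (ff J φ l) := by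
    have : cl (ff J φ 1) = cl (ff J φ l) + cl (ff J φ t⁻¹) := by
      rw [← cl_add, ← ff_add hJ hφ, e1]
    rw [om, this, map_add, p1]
    abel
  have s2 : Tq (φ (t * l⁻¹)) (cl (ff J φ l)) = Tq (φ t) (cl (ff J φ l)) := by
    rw [← e2, map_add, Tq_add, p2]
  have s3 : cl (ff J φ l) = cl (ff J φ (l ^ 2)) + cl (ff J φ (l * t⁻¹)) := by
    rw [← cl_add, ← ff_add hJ hφ, e3]
  have s4 : om J φ t = Tq (φ (t * l⁻¹)) (cl (ff J φ (l ^ 2))) - cl (ff J φ (l ^ 2)) := by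
    rw [s1, ← s2, s3, map_add, p3]
    abel
  have s5 : Tq (φ (t * (l ^ 2)⁻¹)) (cl (ff J φ (l ^ 2))) =
      Tq (φ (t * l⁻¹)) (cl (ff J φ (l ^ 2))) := by
    rw [← e4, map_add, Tq_add, p4]
  have s6 : Vq hJ he (hφ.ne hk) (om J φ t) =
      Tq (φ (t * (l ^ 2)⁻¹)) (cl (ff J φ (l ^ 2))) - cl (ff J φ (l ^ 2)) := by
    rw [om, map_sub, Vq_Tq, ff_U hJ hφ hk, hφ.Hu' hJ]
    have c1 : k * k * t = t * (l ^ 2)⁻¹ := by
      rw [hl]
      field_simp
    have c2 : (1 : L) / k ^ 2 = l ^ 2 := by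
      rw [hl]
      field_simp
    rw [c1, c2]
  rw [s6, s5, ← s4]

end

end Pool.Agent.HuaFd69
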