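import Mathlib
import Pool.Agent.HuaFd69.Per

/-!
Periods of the first differences of the square, continued.
-/

set_option autoImplicit false

open Polynomial

namespace Pool.Agent.HuaFd69

open Pool.Agent.HuaVal

section Poly

variable {p : ℕ} [Fact p.Prime]

theorem zmod_smul_mem {M : Type} [AddCommGroup M] [Module (ZMod p) M] (R : AddSubgroup M)
    (c : ZMod p) {x : M} (hx : x ∈ R) : c • x ∈ R := by
  have h : c • x = c.val • x := by
    conv_lhs => rw [← ZMod.natCast_zmod_val c]
    rw [Nat.cast_smul_eq_nsmul]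
  rw [h]
  exact R.nsmul_mem hx _

/-- The polynomials `X ^ i (X - 1) ^ j` with `i + j = m` span the polynomials of degree at most
`m`. -/
theorem span_poly (m : ℕ) (R : AddSubgroup (ZMod p)[X])
    (h : ∀ i j, i + j = m → (X ^ i * (X - 1) ^ j : (ZMod p)[X]) ∈ R) :
    ∀ f : (ZMod p)[X], f.natDegree ≤ m → f ∈ R := by
  induction m generalizing R with
  | zero =>
    intro f hf
    rw [Polynomial.eq_C_of_natDegree_le_zero hf]
    have h1 := h 0 0 rfl
    rw [pow_zero, pow_zero, one_mul] at h1
    have h2 := zmod_smul_mem R (f.coeff 0) h1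
    rw [Polynomial.smul_eq_C_mul, mul_one] at h2
    exact h2
  | succ m ih =>
    intro f hf
    have h1 := ih (R ⊓ R.comap (AddMonoidHom.mulLeft (X : (ZMod p)[X]))) (by
      intro i j hij
      have a1 : X * (X ^ i * (X - 1) ^ j : (ZMod p)[X]) ∈ R := by
        have := h (i + 1) j (by omega)
        rwa [pow_succ', mul_assoc] at this
      have a2 : (X - 1) * (X ^ i * (X - 1) ^ j : (ZMod p)[X]) ∈ R := by
        have := h i (j + 1) (by omega)
        have e : (X ^ i * (X - 1) ^ (j + 1) : (ZMod p)[X]) =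
            (X - 1) * (X ^ i * (X - 1) ^ j) := by ring
        rwa [e] at this
      refine ⟨?_, a1⟩
      have e : (X ^ i * (X - 1) ^ j : (ZMod p)[X]) =
          X * (X ^ i * (X - 1) ^ j) - (X - 1) * (X ^ i * (X - 1) ^ j) := by ring
      rw [e]
      exact R.sub_mem a1 a2)
    rw [← Polynomial.divX_mul_X_add f]
    refine R.add_mem ?_ ?_
    · rw [mul_comm]
      refine (h1 f.divX ?_).2
      rw [Polynomial.natDegree_divX_eq_natDegree_tsub_one]
      omega
    · exact (h1 (C (f.coeff 0)) (by rw [Polynomial.natDegree_C]; omega)).1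

theorem div_lin (f : (ZMod p)[X]) (hf : f.Monic) {n : ℕ} (hn : f.natDegree = n + 1)
    (a : ZMod p) : ∃ g : (ZMod p)[X], g.Monic ∧ g.natDegree = n ∧
      f = (X - C a) * g + C (eval a f) := by
  refine ⟨f /ₘ (X - C a), ?_, ?_, ?_⟩
  · rw [Polynomial.Monic, Polynomial.leadingCoeff_divByMonic_of_monic (monic_X_sub_C a)]
    · exact hf
    · rw [degree_X_sub_C, Polynomial.degree_eq_natDegree hf.ne_zero, hn]
      exact_mod_cast Nat.succ_le_succ (Nat.zero_le n)
  · rw [Polynomial.natDegree_divByMonic _ (monic_X_sub_C a), hn, natDegree_X_sub_C]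
    rfl
  · have h := Polynomial.modByMonic_add_div f (X - C a)
    rw [Polynomial.modByMonic_X_sub_C_eq_C_eval] at h
    rw [add_comm]
    exact h.symm

end Poly

section OO

variable {p : ℕ} [Fact p.Prime] {L : Type} [Field L] [Algebra (ZMod p) L]

/-- The additive group generated by the powers of `l`. -/
def OO (l : L) : AddSubgroup L := AddSubgroup.closure (Set.range fun j : ℤ => l ^ j)

variable {l : L}

theorem OO.zpow (j : ℤ) : l ^ j ∈ OO l := AddSubgroup.subset_closure ⟨j, rfl⟩

theorem OO.mul_zpow (hl : l ≠ 0) {x : L} (hx : x ∈ OO l) (i : ℤ) : x * l ^ i ∈ OO l := by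
  induction hx using AddSubgroup.closure_induction with
  | mem x hx =>
    obtain ⟨j, rfl⟩ := hx
    change l ^ j * l ^ i ∈ OO l
    rw [← zpow_add₀ hl]
    exact OO.zpow _
  | zero => rw [zero_mul]; exact (OO l).zero_mem
  | add x y _ _ hx hy => rw [add_mul]; exact (OO l).add_mem hx hy
  | neg x _ hx => rw [neg_mul]; exact (OO l).neg_mem hx

variable (p) in
theorem OO.const (c : ZMod p) : algebraMap (ZMod p) L c ∈ OO l := by
  have h : algebraMap (ZMod p) L c = c • l ^ (0 : ℤ) := by
    rw [Algebra.algebraMap_eq_smul_one, zpow_zero]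
  rw [h]
  exact zmod_smul_mem (OO l) c (OO.zpow 0)

/-- Division by `t`. -/
theorem OO.div_t {t : L} (ht : t ≠ 0) (hl : l ≠ 0) (hlt : l * t = t - 1) {x : L}
    (hx : x ∈ OO l) : x / t ∈ OO l := by
  have h : x / t = x - x * l ^ (1 : ℤ) := by
    rw [zpow_one]
    field_simp
    linear_combination x * hlt
  rw [h]
  exact (OO l).sub_mem hx (OO.mul_zpow hl hx 1)

/-- Division by `t - 1`. -/
theorem OO.div_t1 {t : L} (ht1 : t - 1 ≠ 0) (hl : l ≠ 0) (hlt : l * t = t - 1) {x : L}
    (hx : x ∈ OO l) : x / (t - 1) ∈ OO l := by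
  have h : x / (t - 1) = x * l ^ (-1 : ℤ) - x := by
    rw [zpow_neg_one]
    field_simp
    linear_combination x * hlt
  rw [h]
  exact (OO l).sub_mem (OO.mul_zpow hl hx _) hx

theorem OO.div_pow {t : L} (ht : t ≠ 0) (ht1 : t - 1 ≠ 0) (hl : l ≠ 0)
    (hlt : l * t = t - 1) (i j : ℕ) {x : L} (hx : x ∈ OO l) :
    x / (t ^ i * (t - 1) ^ j) ∈ OO l := by
  induction i with
  | zero =>
    induction j with
    | zero => simpa using hx
    | succ j ih =>
      have h := OO.div_t1 ht1 hl hlt ih
      have e : x / (t ^ 0 * (t - 1) ^ (j + 1)) = x / (t ^ 0 * (t - 1) ^ j) / (t - 1) := by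
        field_simp
        ring
      rwa [e]
  | succ i ih =>
    have h := OO.div_t ht hl hlt ih
    have e : x / (t ^ (i + 1) * (t - 1) ^ j) = x / (t ^ i * (t - 1) ^ j) / t := by
      field_simp
      ring
    rwa [e]

/-- A quotient of degree one is `t` up to an element of `OO`. -/
theorem q_frac {t : L} (ht : t ≠ 0) (ht1 : t - 1 ≠ 0) (hl : l ≠ 0) (hlt : l * t = t - 1)
    (i j : ℕ) (q : (ZMod p)[X]) (hq : q.Monic) (hn : q.natDegree = i + j + 1) :
    aeval t q / (t ^ i * (t - 1) ^ j) - t ∈ OO l := by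
  induction i generalizing q with
  | zero =>
    induction j generalizing q with
    | zero =>
      obtain ⟨g, hg, hg0, he⟩ := div_lin q hq hn 0
      have hg1 : g = 1 := hg.natDegree_eq_zero.mp hg0
      have h1 : aeval t q / (t ^ 0 * (t - 1) ^ 0) - t =
          algebraMap (ZMod p) L (eval 0 q) := by
        conv_lhs => rw [he, hg1]
        simp
      rw [h1]
      exact OO.const p _
    | succ j ih =>
      obtain ⟨g, hg, hg0, he⟩ := div_lin q hq hn 1
      have h1 := ih g hg hg0
      have h2 : aeval t q = (t - 1) * aeval t g + algebraMap (ZMod p) L (eval 1 q) := by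
        conv_lhs => rw [he]
        simp
      have h3 : aeval t q / (t ^ 0 * (t - 1) ^ (j + 1)) - t =
          (aeval t g / (t ^ 0 * (t - 1) ^ j) - t) +
            algebraMap (ZMod p) L (eval 1 q) / (t ^ 0 * (t - 1) ^ (j + 1)) := by
        rw [h2]
        field_simp
        ring
      rw [h3]
      exact (OO l).add_mem h1 (OO.div_pow ht ht1 hl hlt 0 (j + 1) (OO.const p _))
  | succ i ih =>
    obtain ⟨g, hg, hg0, he⟩ := div_lin q hq (n := i + j + 1) (by rw [hn]; ring) 0
    have h1 := ih g hg hg0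
    have h2 : aeval t q = t * aeval t g + algebraMap (ZMod p) L (eval 0 q) := by
      conv_lhs => rw [he]
      simp
    have h3 : aeval t q / (t ^ (i + 1) * (t - 1) ^ j) - t =
        (aeval t g / (t ^ i * (t - 1) ^ j) - t) +
          algebraMap (ZMod p) L (eval 0 q) / (t ^ (i + 1) * (t - 1) ^ j) := by
      rw [h2]
      field_simp
      ring
    rw [h3]
    exact (OO l).add_mem h1 (OO.div_pow ht ht1 hl hlt (i + 1) j (OO.const p _))

end OO

end Pool.Agent.HuaFd69
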