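import Mathlib
import Pool.Agent.HuaFd69.Per2

/-!
Periods of the second differences of the square.
-/

set_option autoImplicit false

open Polynomial

namespace Pool.Agent.HuaFd69

open Pool.Agent.HuaVal

section

variable {p : ℕ} [Fact p.Prime]
variable {A : Type} [AddCommGroup A] {J : A → A → A} (hJ : JSys J)
variable {L : Type} [Field L] [Algebra (ZMod p) L] {φ : L →+ A} (hφ : FP J φ)

include hJ hφ in
theorem om_one (t : L) : Tq (φ 1) (om J φ t) = om J φ t := by
  have h1 : Tq (φ 1) (cl (ff J φ 1)) = cl (ff J φ 1) := by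
    have h := ff_per hJ hφ (one_ne_zero (α := L))
    rwa [inv_one] at h
  rw [om, map_sub, Tq_comm, h1]

/-- The periods of the first difference, as a subgroup of the field. -/
noncomputable def PP (J : A → A → A) (φ : L →+ A) (t : L) : AddSubgroup L := (Pd (om J φ t)).comap φ

theorem mem_PP {J : A → A → A} {φ : L →+ A} {t x : L} :
    x ∈ PP J φ t ↔ Tq (φ x) (om J φ t) = om J φ t := Iff.rfl

include hJ hφ in
theorem Vq_inv {k : L} (hk : k ≠ 0) (q : QQ A) :
    Vq hJ (hφ.ne one_ne_zero) (hφ.ne (inv_ne_zero hk))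
      (Vq hJ (hφ.ne one_ne_zero) (hφ.ne hk) q) = q := by
  obtain ⟨F, rfl⟩ := cl_surj q
  rw [Vq_cl, Vq_cl]
  congr 1
  funext u
  have he := hφ.ne (one_ne_zero (α := L))
  change H J (φ 1) (φ k⁻¹) (H J (φ 1) (φ k)
    (F (H J (φ 1) (J (φ 1) (φ k)) (H J (φ 1) (J (φ 1) (φ k⁻¹)) u)))) = F u
  rw [hφ.J1 hk, hφ.J1 (inv_ne_zero hk), inv_inv, ← hφ.J1 hk, H_left_inv hJ he (hφ.ne hk),
    H_left_inv hJ he (hφ.ne hk)]

include hJ hφ in
theorem PP_torus {t : L} (ht : t ≠ 0) {k : L} (hk : k ≠ 0)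
    (hkt : k * (t - 1) = t) {x : L} (hx : x ∈ PP J φ t) :
    k ^ 2 * x ∈ PP J φ t ∧ (k ^ 2)⁻¹ * x ∈ PP J φ t := by
  have ht1 : t - 1 ≠ 0 := by
    intro h
    rw [h, mul_zero] at hkt
    exact ht hkt.symm
  have h1 := om_torus hJ hφ ht ht1 hk hkt
  have h2 : Vq hJ (hφ.ne one_ne_zero) (hφ.ne (inv_ne_zero hk)) (om J φ t) = om J φ t := by
    conv_lhs => rw [← h1]
    exact Vq_inv hJ hφ hk _
  rw [mem_PP] at hx
  constructor
  · have h3 := congrArg (Vq hJ (hφ.ne one_ne_zero) (hφ.ne hk)) hx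
    rw [Vq_Tq, h1, hφ.Hu' hJ] at h3
    rw [mem_PP]
    have e : k ^ 2 * x = k * k * x := by ring
    rw [e]
    exact h3
  · have h3 := congrArg (Vq hJ (hφ.ne one_ne_zero) (hφ.ne (inv_ne_zero hk))) hx
    rw [Vq_Tq, h2, hφ.Hu' hJ] at h3
    rw [mem_PP]
    have e : (k ^ 2)⁻¹ * x = k⁻¹ * k⁻¹ * x := by rw [sq, mul_inv]
    rw [e]
    exact h3

include hJ hφ in
theorem OO_le {t l : L} (ht : t ≠ 0) (hl : l ≠ 0) (hlt : l * t = t - 1) :
    OO l ≤ PP J φ t := by
  have hk : l⁻¹ ≠ 0 := inv_ne_zero hl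
  have hkt : l⁻¹ * (t - 1) = t := by
    rw [← hlt]
    field_simp
  have h1 : ∀ x, x ∈ PP J φ t → ∀ i : ℤ, (l ^ 2) ^ i * x ∈ PP J φ t := by
    intro x hx i
    induction i using Int.induction_on with
    | zero => rwa [zpow_zero, one_mul]
    | succ i ih =>
      have h2 := (PP_torus hJ hφ ht hk hkt ih).2
      have e : ((l⁻¹ ^ 2)⁻¹ : L) * ((l ^ 2) ^ (i : ℤ) * x) = (l ^ 2) ^ ((i : ℤ) + 1) * x := by
        rw [zpow_add_one₀ (pow_ne_zero 2 hl), inv_pow, inv_inv]
        ring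
      rwa [e] at h2
    | pred i ih =>
      have h2 := (PP_torus hJ hφ ht hk hkt ih).1
      have e : (l⁻¹ ^ 2 : L) * ((l ^ 2) ^ (-(i : ℤ)) * x) = (l ^ 2) ^ (-(i : ℤ) - 1) * x := by
        rw [zpow_sub_one₀ (pow_ne_zero 2 hl), inv_pow]
        ring
      rwa [e] at h2
  have m1 : (1 : L) ∈ PP J φ t := by
    rw [mem_PP]
    exact om_one hJ hφ t
  have m2 : t⁻¹ ∈ PP J φ t := by
    rw [mem_PP]
    exact E2 hJ hφ ht
  have m3 : l ∈ PP J φ t := by
    have e : l = 1 - t⁻¹ := by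
      field_simp
      linear_combination hlt
    rw [e]
    exact (PP J φ t).sub_mem m1 m2
  rw [OO, AddSubgroup.closure_le]
  rintro _ ⟨j, rfl⟩
  change l ^ j ∈ PP J φ t
  rcases Int.even_or_odd' j with ⟨i, hi | hi⟩
  · have h2 := h1 1 m1 i
    rw [hi, zpow_mul, mul_one] at *
    exact_mod_cast h2
  · have h2 := h1 l m3 i
    have e : l ^ (2 * i + 1) = (l ^ 2) ^ i * l := by
      rw [zpow_add_one₀ hl, zpow_mul]
      norm_cast
    rw [hi, e]
    exact h2

/-- The second difference. -/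
noncomputable def et (J : A → A → A) (φ : L →+ A) (t : L) : QQ A :=
  Tq (φ t) (om J φ t) - om J φ t

include hJ hφ in
theorem et_gen {t l : L} (ht : t ≠ 0) (hl : l ≠ 0) (hlt : l * t = t - 1) (i j : ℕ)
    (q : (ZMod p)[X]) (hq : q.Monic) (hn : q.natDegree = i + j + 1) (hq0 : aeval t q ≠ 0) :
    Tq (φ (t ^ i * (t - 1) ^ j / aeval t q)) (et J φ t) = et J φ t := by
  have ht1 : t - 1 ≠ 0 := by
    rw [← hlt]
    exact mul_ne_zero hl ht
  have hg0 : t ^ i * (t - 1) ^ j ≠ 0 := mul_ne_zero (pow_ne_zero _ ht) (pow_ne_zero _ ht1)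
  set e : L := aeval t q / (t ^ i * (t - 1) ^ j) with he
  have he0 : e ≠ 0 := div_ne_zero hq0 hg0
  have h1 := OO_le hJ hφ ht hl hlt (q_frac ht ht1 hl hlt i j q hq hn)
  rw [← he, mem_PP] at h1
  have h2 : Tq (φ e) (om J φ t) = Tq (φ t) (om J φ t) := by
    have e1 : e = t + (e - t) := by ring
    rw [e1, map_add, Tq_add, h1]
  have h3 := E2 hJ hφ he0
  have e4 : e⁻¹ = t ^ i * (t - 1) ^ j / aeval t q := by rw [he, inv_div]
  rw [e4] at h3
  have h5 : Tq (φ t) (om J φ e) - om J φ e = et J φ t := by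
    rw [et, ← h2, om, om]
    simp only [map_sub]
    rw [Tq_comm (φ t) (φ e)]
    abel
  rw [← h5, map_sub, Tq_comm, h3]

/-- The elements of the field regular at infinity. -/
def Reg (p : ℕ) [Fact p.Prime] {L : Type} [Field L] [Algebra (ZMod p) L] (t x : L) : Prop :=
  ∃ h q : (ZMod p)[X], q.Monic ∧ h.natDegree ≤ q.natDegree ∧ aeval t q ≠ 0 ∧
    x = aeval t h / aeval t q

include hJ hφ in
theorem et_const (t : L) (c : ZMod p) :
    Tq (φ (algebraMap (ZMod p) L c)) (et J φ t) = et J φ t := by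
  have h1 : Tq (φ 1) (et J φ t) = et J φ t := by
    rw [et, map_sub, Tq_comm, om_one hJ hφ]
  have h2 : (1 : L) ∈ (Pd (et J φ t)).comap φ := h1
  have h3 := zmod_smul_mem _ c h2
  rw [← Algebra.algebraMap_eq_smul_one] at h3
  exact h3

include hJ hφ in
theorem et_reg {t l : L} (ht : t ≠ 0) (hl : l ≠ 0) (hlt : l * t = t - 1) {x : L}
    (hx : Reg p t x) : Tq (φ x) (et J φ t) = et J φ t := by
  obtain ⟨h, q, hq, hd, hq0, rfl⟩ := hx
  by_cases hn : q.natDegree = 0
  · have hq1 : q = 1 := hq.natDegree_eq_zero.mp hn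
    rw [hn] at hd
    rw [hq1, Polynomial.eq_C_of_natDegree_le_zero hd]
    simp only [aeval_C, map_one, div_one]
    exact et_const hJ hφ t _
  obtain ⟨n, hn⟩ : ∃ n, q.natDegree = n + 1 := ⟨q.natDegree - 1, by omega⟩
  -- the polynomials of degree at most `n`
  let mp : (ZMod p)[X] →+ A :=
    { toFun := fun f => φ (aeval t f / aeval t q)
      map_zero' := by simp
      map_add' := fun f g => by simp only [map_add, add_div] }
  have h1 : ∀ f : (ZMod p)[X], f.natDegree ≤ n → f ∈ (Pd (et J φ t)).comap mp := by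
    refine span_poly n _ fun i j hij => ?_
    change Tq (φ (aeval t (X ^ i * (X - 1) ^ j : (ZMod p)[X]) / aeval t q)) _ = _
    have e : aeval t (X ^ i * (X - 1) ^ j : (ZMod p)[X]) = t ^ i * (t - 1) ^ j := by simp
    rw [e]
    exact et_gen hJ hφ ht hl hlt i j q hq (by omega) hq0
  set c : ZMod p := h.coeff (n + 1) with hc
  have h2 := h1 (h - C c * q) (by
    rw [Polynomial.natDegree_le_iff_coeff_eq_zero]
    intro N hN
    rw [coeff_sub, coeff_C_mul]
    rcases Nat.lt_or_ge (n + 1) N with h3 | h3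
    · rw [Polynomial.coeff_eq_zero_of_natDegree_lt (by omega),
        Polynomial.coeff_eq_zero_of_natDegree_lt (by omega)]
      ring
    · have h4 : N = n + 1 := by omega
      have h5 : q.coeff (n + 1) = 1 := by
        rw [← hn]
        exact hq
      rw [h4, h5, ← hc]
      ring)
  have h3 : Tq (φ (aeval t (h - C c * q) / aeval t q)) (et J φ t) = et J φ t := h2
  have e : aeval t h / aeval t q =
      algebraMap (ZMod p) L c + aeval t (h - C c * q) / aeval t q := by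
    rw [map_sub, map_mul, aeval_C]
    field_simp
    ring
  rw [e, map_add, Tq_add, h3]
  exact et_const hJ hφ t _

end

end Pool.Agent.HuaFd69
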