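import Mathlib
import Pool.Agent.HuaFd69.Fix
import Pool.Agent.HuaFd69.Per3
import Pool.Agent.HuaOne84.Basic

/-!
The module spanned by the squares of the points of a plane, and the action of the group.
-/

set_option autoImplicit false

namespace Pool.Agent.HuaFd69

open Pool.Agent.HuaVal Pool.Agent.HuaOne84

open scoped Classical

section

variable {A : Type} [AddCommGroup A] {J : A → A → A} (hJ : JSys J)
variable {L : Type} [Field L] {φ : L →+ A} (hφ : FP J φ)

/-- Formal sums of vectors with coefficients. -/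
abbrev NN (L : Type) [Field L] : Type := (L × L) →₀ L

/-- The map induced by a map of the plane. -/
noncomputable def act (f : L × L → L × L) : NN L →+ NN L := Finsupp.mapDomain.addMonoidHom f

theorem act_single (f : L × L → L × L) (v : L × L) (y : L) :
    act f (Finsupp.single v y) = Finsupp.single (f v) y := Finsupp.mapDomain_single

theorem act_comp (f g : L × L → L × L) (n : NN L) : act f (act g n) = act (f ∘ g) n :=
  (Finsupp.mapDomain_comp).symm

theorem act_id (n : NN L) : act id n = n := Finsupp.mapDomain_id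

/-- Evaluation of a vector. -/
noncomputable def Ev (hJ : JSys J) (hφ : FP J φ) (v : L × L) : L →+ (A → A) where
  toFun y := fun u =>
    if v.2 = 0 then φ (v.1 * v.1 * y) else H J (φ 1) (u - φ (v.1 / v.2)) (φ (v.2 * v.2 * y))
  map_zero' := by
    funext u
    by_cases h : v.2 = 0
    · simp [h]
    · simp [h, H_zero_right hJ (hφ.ne one_ne_zero)]
  map_add' y z := by
    funext u
    by_cases h : v.2 = 0
    · simp [h, mul_add]
    · simp [h, mul_add, H_add hJ (hφ.ne one_ne_zero)]

/-- Evaluation of formal sums. -/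
noncomputable def evA : NN L →+ (A → A) := Finsupp.liftAddHom (Ev hJ hφ)

/-- Evaluation at infinity. -/
noncomputable def evI : NN L →+ L := Finsupp.liftAddHom fun v => AddMonoidHom.mulLeft (v.2 * v.2)

theorem evA_single (v : L × L) (y : L) : evA hJ hφ (Finsupp.single v y) = Ev hJ hφ v y := by
  rw [evA, Finsupp.liftAddHom_apply_single]

theorem evI_single (v : L × L) (y : L) : evI (Finsupp.single v y) = v.2 * v.2 * y := by
  rw [evI, Finsupp.liftAddHom_apply_single]
  rfl

/-- The relations. -/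
noncomputable def RR : AddSubgroup (NN L) := (evA hJ hφ).ker ⊓ evI.ker

theorem mem_RR {n : NN L} : n ∈ RR hJ hφ ↔ evA hJ hφ n = 0 ∧ evI n = 0 := Iff.rfl

/-- Shear. -/
def shr (c : L) (v : L × L) : L × L := (v.1 + c * v.2, v.2)

/-- Exchange of the coordinates. -/
def swp (v : L × L) : L × L := (v.2, v.1)

theorem evA_shr (c : L) (n : NN L) : evA hJ hφ (act (shr c) n) = Tf (-φ c) (evA hJ hφ n) := by
  induction n using Finsupp.induction_linear with
  | zero => simp only [map_zero]
  | add f g hf hg => simp only [map_add, hf, hg]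
  | single v y =>
    rw [act_single, evA_single, evA_single]
    funext u
    change (if v.2 = 0 then φ ((v.1 + c * v.2) * (v.1 + c * v.2) * y) else
      H J (φ 1) (u - φ ((v.1 + c * v.2) / v.2)) (φ (v.2 * v.2 * y))) =
      (if v.2 = 0 then φ (v.1 * v.1 * y) else
      H J (φ 1) (u + -φ c - φ (v.1 / v.2)) (φ (v.2 * v.2 * y)))
    by_cases h : v.2 = 0
    · rw [if_pos h, if_pos h, h, mul_zero, add_zero]
    · rw [if_neg h, if_neg h]
      congr 1
      have e : (v.1 + c * v.2) / v.2 = v.1 / v.2 + c := by field_simp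
      rw [e, map_add]
      abel

theorem evI_shr (c : L) (n : NN L) : evI (act (shr c) n) = evI n := by
  induction n using Finsupp.induction_linear with
  | zero => simp only [map_zero]
  | add f g hf hg => simp only [map_add, hf, hg]
  | single v y => rw [act_single, evI_single, evI_single]; rfl

theorem evA_swp {u : A} (hu : u ≠ 0) (n : NN L) :
    evA hJ hφ (act swp n) u = H J (φ 1) u (evA hJ hφ n (J (φ 1) u)) := by
  have he := hφ.ne (one_ne_zero (α := L))
  induction n using Finsupp.induction_linear with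
  | zero =>
    simp only [map_zero]
    exact (H_zero_right hJ he u).symm
  | add f g hf hg =>
    simp only [map_add, Pi.add_apply]
    rw [H_add hJ he]
    exact congrArg₂ (· + ·) hf hg
  | single v y =>
    rw [act_single, evA_single, evA_single]
    change (if v.1 = 0 then φ (v.2 * v.2 * y) else
      H J (φ 1) (u - φ (v.2 / v.1)) (φ (v.1 * v.1 * y))) =
      H J (φ 1) u (if v.2 = 0 then φ (v.1 * v.1 * y) else
      H J (φ 1) (J (φ 1) u - φ (v.1 / v.2)) (φ (v.2 * v.2 * y)))
    by_cases h1 : v.1 = 0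
    · rw [if_pos h1]
      by_cases h2 : v.2 = 0
      · rw [if_pos h2, h1, h2, mul_zero, zero_mul, map_zero, H_zero_right hJ he]
      · rw [if_neg h2, h1, zero_div, map_zero, sub_zero, H_right_inv hJ he hu]
    · rw [if_neg h1]
      by_cases h2 : v.2 = 0
      · rw [if_pos h2, h2, zero_div, map_zero, sub_zero]
      · rw [if_neg h2]
        have hw : v.2 / v.1 ≠ 0 := div_ne_zero h2 h1
        have h3 := H_sum hJ he u (-φ (v.2 / v.1)) (φ (v.1 * v.1 * y)) hu
          (neg_ne_zero.mpr (hφ.ne hw))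
        rw [sub_eq_add_neg, h3, i_neg hJ he, hφ.J1 hw, H_neg hJ, hφ.Hu' hJ, inv_div,
          ← sub_eq_add_neg]
        congr 3
        field_simp

theorem evA_swp_zero (n : NN L) : evA hJ hφ (act swp n) 0 = φ (evI n) := by
  have he := hφ.ne (one_ne_zero (α := L))
  induction n using Finsupp.induction_linear with
  | zero => simp only [map_zero]; rfl
  | add f g hf hg =>
    simp only [map_add, Pi.add_apply]
    exact congrArg₂ (· + ·) hf hg
  | single v y =>
    rw [act_single, evA_single, evI_single]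
    change (if v.1 = 0 then φ (v.2 * v.2 * y) else
      H J (φ 1) (0 - φ (v.2 / v.1)) (φ (v.1 * v.1 * y))) = φ (v.2 * v.2 * y)
    by_cases h1 : v.1 = 0
    · rw [if_pos h1]
    · rw [if_neg h1, zero_sub, H_neg hJ, hφ.Hu' hJ]
      congr 1
      field_simp

theorem act_swp_swp (n : NN L) : act swp (act swp n) = n := by
  rw [act_comp]
  exact act_id n

/-- A map preserving the relations. -/
def Sta (f : L × L → L × L) : Prop := ∀ n ∈ RR hJ hφ, act f n ∈ RR hJ hφ

theorem Sta.comp {f g : L × L → L × L} (hf : Sta hJ hφ f) (hg : Sta hJ hφ g) :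
    Sta hJ hφ (f ∘ g) := by
  intro n hn
  rw [← act_comp]
  exact hf _ (hg _ hn)

theorem sta_shr (c : L) : Sta hJ hφ (shr c) := by
  intro n hn
  rw [mem_RR] at hn ⊢
  rw [evA_shr, evI_shr, hn.1, map_zero]
  exact ⟨rfl, hn.2⟩

theorem sta_swp : Sta hJ hφ swp := by
  have he := hφ.ne (one_ne_zero (α := L))
  intro n hn
  rw [mem_RR] at hn ⊢
  constructor
  · funext u
    by_cases hu : u = 0
    · rw [hu, evA_swp_zero, hn.2, map_zero]
      rfl
    · rw [evA_swp hJ hφ hu, hn.1]
      exact H_zero_right hJ he u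
  · apply hφ.inj
    rw [← evA_swp_zero hJ hφ, act_swp_swp, hn.1, map_zero]
    rfl

/-- The linear map of the plane attached to a matrix. -/
def mv (g : Matrix (Fin 2) (Fin 2) L) (v : L × L) : L × L :=
  (g 0 0 * v.1 + g 0 1 * v.2, g 1 0 * v.1 + g 1 1 * v.2)

theorem mv_mul (g h : Matrix (Fin 2) (Fin 2) L) : mv (g * h) = mv g ∘ mv h := by
  funext v
  simp only [mv, Matrix.mul_apply, Fin.sum_univ_two, Function.comp]
  ext <;> ring

theorem mv_one : mv (1 : Matrix (Fin 2) (Fin 2) L) = id := by
  funext v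
  simp [mv]

theorem mv_up (c : L) : mv (up c).1 = shr c := by
  funext v
  simp [mv, up, shr]

theorem mv_lo (c : L) : mv (lo c).1 = swp ∘ shr c ∘ swp := by
  funext v
  simp [mv, lo, shr, swp]
  ring

theorem sta_mv (g : GG L) : Sta hJ hφ (mv g.1) := by
  let S : Subgroup (GG L) :=
    { carrier := {g | Sta hJ hφ (mv g.1) ∧ Sta hJ hφ (mv (g⁻¹).1)}
      mul_mem' := by
        rintro a b ⟨h1, h2⟩ ⟨h3, h4⟩
        refine ⟨?_, ?_⟩
        · have : mv (a * b).1 = mv a.1 ∘ mv b.1 := by
            rw [← mv_mul]; rfl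
          rw [this]
          exact h1.comp hJ hφ h3
        · have : mv ((a * b)⁻¹).1 = mv (b⁻¹).1 ∘ mv (a⁻¹).1 := by
            rw [← mv_mul, mul_inv_rev]; rfl
          rw [this]
          exact h4.comp hJ hφ h2
      one_mem' := by
        have h : Sta hJ hφ (mv (1 : GG L).1) := by
          intro n hn
          have : mv (1 : GG L).1 = id := mv_one
          rw [this, act_id]
          exact hn
        exact ⟨h, by rw [inv_one]; exact h⟩
      inv_mem' := by
        rintro a ⟨h1, h2⟩
        exact ⟨h2, by rw [inv_inv]; exact h1⟩ }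
  have h1 : ∀ c, Sta hJ hφ (mv (up c : GG L).1) := fun c => by
    rw [mv_up]; exact sta_shr hJ hφ c
  have h2 : ∀ c, Sta hJ hφ (mv (lo c : GG L).1) := fun c => by
    rw [mv_lo]
    exact (sta_swp hJ hφ).comp hJ hφ ((sta_shr hJ hφ c).comp hJ hφ (sta_swp hJ hφ))
  have h3 : S = ⊤ := by
    refine top_of_up_lo S (fun c => ⟨h1 c, ?_⟩) (fun c => ⟨h2 c, ?_⟩)
    · have : (up c : GG L)⁻¹ = up (-c) := by
        rw [inv_eq_iff_mul_eq_one, ← up_add, add_neg_cancel, up_zero]
      rw [this]
      exact h1 _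
    · have : (lo c : GG L)⁻¹ = lo (-c) := by
        rw [inv_eq_iff_mul_eq_one, ← lo_add, add_neg_cancel, lo_zero]
      rw [this]
      exact h2 _
  have h4 : g ∈ S := by rw [h3]; trivial
  exact h4.1

/-- The module. -/
abbrev MM (hJ : JSys J) (hφ : FP J φ) : Type := NN L ⧸ RR hJ hφ

/-- The class of a formal sum. -/
noncomputable def kl (n : NN L) : MM hJ hφ := QuotientAddGroup.mk n

theorem kl_surj (m : MM hJ hφ) : ∃ n, kl hJ hφ n = m := QuotientAddGroup.mk_surjective m

theorem kl_eq {m n : NN L} : kl hJ hφ m = kl hJ hφ n ↔ m - n ∈ RR hJ hφ := by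
  have h : kl hJ hφ m = kl hJ hφ n ↔ -m + n ∈ RR hJ hφ := QuotientAddGroup.eq
  rw [h, ← (RR hJ hφ).neg_mem_iff]
  congr! 1
  abel

/-- The action on the module. -/
noncomputable def rh : GG L →* AddMonoid.End (MM hJ hφ) where
  toFun g := QuotientAddGroup.map _ _ (act (mv g.1)) (sta_mv hJ hφ g)
  map_one' := by
    ext m
    obtain ⟨n, rfl⟩ := kl_surj hJ hφ m
    change kl hJ hφ (act (mv (1 : GG L).1) n) = kl hJ hφ n
    have : mv (1 : GG L).1 = id := mv_one
    rw [this, act_id]
  map_mul' a b := by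
    ext m
    obtain ⟨n, rfl⟩ := kl_surj hJ hφ m
    change kl hJ hφ (act (mv (a * b).1) n) = kl hJ hφ (act (mv a.1) (act (mv b.1) n))
    have : mv (a * b).1 = mv a.1 ∘ mv b.1 := by
      rw [← mv_mul]; rfl
    rw [this, act_comp]

theorem rh_kl (g : GG L) (n : NN L) :
    rh hJ hφ g (kl hJ hφ n) = kl hJ hφ (act (mv g.1) n) := rfl

/-- The exchange on the module. -/
noncomputable def sg : MM hJ hφ →+ MM hJ hφ :=
  QuotientAddGroup.map _ _ (act swp) (sta_swp hJ hφ)

theorem sg_kl (n : NN L) : sg hJ hφ (kl hJ hφ n) = kl hJ hφ (act swp n) := rfl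

theorem sg_sg (m : MM hJ hφ) : sg hJ hφ (sg hJ hφ m) = m := by
  obtain ⟨n, rfl⟩ := kl_surj hJ hφ m
  rw [sg_kl, sg_kl, act_swp_swp]

theorem rh_lo (c : L) (m : MM hJ hφ) :
    rh hJ hφ (lo c) m = sg hJ hφ (rh hJ hφ (up c) (sg hJ hφ m)) := by
  obtain ⟨n, rfl⟩ := kl_surj hJ hφ m
  rw [sg_kl, rh_kl, rh_kl, sg_kl, act_comp, act_comp, mv_lo, mv_up]
  rfl

end

end Pool.Agent.HuaFd69
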