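import Mathlib
import Pool.Agent.HuaFd69.Mod

/-!
The parallelogram defects as elements of the module.
-/

set_option autoImplicit false

open scoped Classical

namespace Pool.Agent.HuaFd69

open Pool.Agent.HuaVal Pool.Agent.HuaOne84 Finsupp

section

variable {A : Type} [AddCommGroup A] {J : A → A → A} (hJ : JSys J)
variable {L : Type} [Field L] {φ : L →+ A} (hφ : FP J φ)

theorem kl_add (m n : NN L) : kl hJ hφ (m + n) = kl hJ hφ m + kl hJ hφ n := rfl

theorem kl_sub (m n : NN L) : kl hJ hφ (m - n) = kl hJ hφ m - kl hJ hφ n := rfl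

theorem kl_scale {k : L} (hk : k ≠ 0) (a b y : L) :
    kl hJ hφ (single (k * a, k * b) y) = kl hJ hφ (single (a, b) (k ^ 2 * y)) := by
  rw [kl_eq, mem_RR]
  simp only [map_sub, evA_single, evI_single]
  constructor
  · rw [sub_eq_zero]
    funext u
    change (if k * b = 0 then φ (k * a * (k * a) * y) else
      H J (φ 1) (u - φ (k * a / (k * b))) (φ (k * b * (k * b) * y))) =
      (if b = 0 then φ (a * a * (k ^ 2 * y)) else
      H J (φ 1) (u - φ (a / b)) (φ (b * b * (k ^ 2 * y))))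
    by_cases hb : b = 0
    · rw [if_pos hb, if_pos (by rw [hb, mul_zero])]
      congr 1
      ring
    · rw [if_neg hb, if_neg (mul_ne_zero hk hb)]
      have e1 : k * a / (k * b) = a / b := by field_simp
      have e2 : k * b * (k * b) * y = b * b * (k ^ 2 * y) := by ring
      rw [e1, e2]
  · ring

/-- The parallelogram defect, as a formal sum. -/
noncomputable def dd (y x : L) : NN L :=
  single (-x, 1) y + single (x, 1) y - (single (0, 1) y + single (0, 1) y) -
    (single (x, 0) y + single (x, 0) y)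

/-- The parallelogram defect, as an element of the module. -/
noncomputable def DD (y x : L) : MM hJ hφ := kl hJ hφ (dd y x)

theorem DD_eq (y x : L) : DD hJ hφ y x =
    kl hJ hφ (single (-x, 1) y) + kl hJ hφ (single (x, 1) y) -
      (kl hJ hφ (single (0, 1) y) + kl hJ hφ (single (0, 1) y)) -
      (kl hJ hφ (single (x, 0) y) + kl hJ hφ (single (x, 0) y)) := rfl

theorem DD_add (y y' x : L) : DD hJ hφ (y + y') x = DD hJ hφ y x + DD hJ hφ y' x := by
  simp only [DD_eq, single_add, kl_add]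
  abel

theorem kl_line {a b c d y : L} (h : a ^ 2 + b ^ 2 = c ^ 2 + d ^ 2) :
    kl hJ hφ (single (a, 0) y) + kl hJ hφ (single (b, 0) y) =
      kl hJ hφ (single (c, 0) y) + kl hJ hφ (single (d, 0) y) := by
  rw [← kl_add, ← kl_add, kl_eq, mem_RR]
  simp only [map_sub, map_add, evA_single, evI_single]
  constructor
  · rw [sub_eq_zero]
    funext u
    change (if (0 : L) = 0 then φ (a * a * y) else _) + (if (0 : L) = 0 then φ (b * b * y) else _)
      = (if (0 : L) = 0 then φ (c * c * y) else _) + (if (0 : L) = 0 then φ (d * d * y) else _)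
    rw [if_pos rfl, if_pos rfl, if_pos rfl, if_pos rfl, ← map_add, ← map_add]
    congr 1
    linear_combination y * h
  · ring

theorem kl_zero_vec (y : L) : kl hJ hφ (single (0, 0) y) = 0 := by
  have h : kl hJ hφ (single (0, 0) y) = kl hJ hφ 0 := by
    rw [kl_eq, mem_RR, sub_zero]
    simp only [evA_single, evI_single]
    constructor
    · funext u
      change (if (0 : L) = 0 then φ (0 * 0 * y) else _) = 0
      rw [if_pos rfl, zero_mul, zero_mul, map_zero]
    · ring
  rw [h]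
  rfl

theorem rh_single (g : GG L) (v : L × L) (y : L) :
    rh hJ hφ g (kl hJ hφ (single v y)) = kl hJ hφ (single (mv g.1 v) y) := by
  rw [rh_kl, act_single]

theorem DD_par (y x z : L) : DD hJ hφ y (x + z) + DD hJ hφ y (x - z) =
    rh hJ hφ (up z) (DD hJ hφ y x) + rh hJ hφ (up (-z)) (DD hJ hφ y x) +
      (DD hJ hφ y z + DD hJ hφ y z) := by
  have e1 := kl_line hJ hφ (a := x + z) (b := x - z) (c := x + z) (d := x - z) (y := y) rfl
  have e2 : kl hJ hφ (single (x + z, 0) y) + kl hJ hφ (single (x - z, 0) y) =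
      kl hJ hφ (single (x, 0) y) + kl hJ hφ (single (x, 0) y) +
      (kl hJ hφ (single (z, 0) y) + kl hJ hφ (single (z, 0) y)) := by
    rw [← kl_add, ← kl_add, ← kl_add, ← kl_add, kl_eq, mem_RR]
    simp only [map_sub, map_add, evA_single, evI_single]
    constructor
    · rw [sub_eq_zero]
      funext u
      change (if (0 : L) = 0 then φ ((x + z) * (x + z) * y) else _) +
        (if (0 : L) = 0 then φ ((x - z) * (x - z) * y) else _)
        = (if (0 : L) = 0 then φ (x * x * y) else _) + (if (0 : L) = 0 then φ (x * x * y) else _)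
        + ((if (0 : L) = 0 then φ (z * z * y) else _) +
        (if (0 : L) = 0 then φ (z * z * y) else _))
      simp only [if_true]
      rw [← map_add, ← map_add, ← map_add, ← map_add]
      congr 1
      ring
    · ring
  simp only [DD_eq, map_add, map_sub, rh_single, mv_up, shr]
  have a1 : -x + z * 1 = -(x - z) := by ring
  have a2 : x + z * 1 = x + z := by ring
  have a3 : 0 + z * 1 = z := by ring
  have a4 : x + z * 0 = x := by ring
  have a5 : -x + -z * 1 = -(x + z) := by ring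
  have a6 : x + -z * 1 = x - z := by ring
  have a7 : 0 + -z * 1 = -z := by ring
  have a8 : x + -z * 0 = x := by ring
  rw [a1, a2, a3, a4, a5, a6, a7, a8]
  have e3 : ∀ a b c d e f g h i j k : MM hJ hφ, j + k = f + f + (g + g) →
      a + b - (e + e) - (j + j) + (c + d - (e + e) - (k + k)) =
      c + b - (h + h) - (f + f) + (a + d - (i + i) - (f + f)) +
        (i + h - (e + e) - (g + g) + (i + h - (e + e) - (g + g))) := by
    intro a b c d e f g h i j k hjk
    have : a + b - (e + e) - (j + j) + (c + d - (e + e) - (k + k)) =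
      a + b + c + d - (e + e) - (e + e) - ((j + k) + (j + k)) := by abel
    rw [this, hjk]
    abel
  exact e3 _ _ _ _ _ _ _ _ _ _ _ e2

theorem DD_di {k : L} (hk : k ≠ 0) (y x : L) :
    rh hJ hφ (di k hk) (DD hJ hφ y x) = DD hJ hφ (k⁻¹ ^ 2 * y) (k ^ 2 * x) := by
  have hki := inv_ne_zero hk
  have h1 : ∀ a b : L, mv (di k hk).1 (a, b) = (k⁻¹ * (k ^ 2 * a), k⁻¹ * b) := by
    intro a b
    simp only [mv, di]
    ext
    · simp
      field_simp
    · simp
  simp only [DD_eq, map_add, map_sub, rh_single, h1, kl_scale hJ hφ hki]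
  simp only [mul_zero, mul_neg]

theorem sg_single (a b y : L) :
    sg hJ hφ (kl hJ hφ (single (a, b) y)) = kl hJ hφ (single (b, a) y) := by
  rw [sg_kl, act_single]
  rfl

theorem DD_sg {x : L} (hx : x ≠ 0) (y : L) :
    sg hJ hφ (DD hJ hφ y x) = DD hJ hφ (x ^ 2 * y) x⁻¹ := by
  simp only [DD_eq, map_add, map_sub, sg_single]
  have h1 : kl hJ hφ (single (1, -x) y) = kl hJ hφ (single (-x⁻¹, 1) (x ^ 2 * y)) := by
    have e : ((1 : L), -x) = (-x * -x⁻¹, -x * 1) := by
      ext
      · simp [mul_inv_cancel₀ hx]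
      · simp
    rw [e, kl_scale hJ hφ (neg_ne_zero.mpr hx), neg_sq]
  have h2 : kl hJ hφ (single (1, x) y) = kl hJ hφ (single (x⁻¹, 1) (x ^ 2 * y)) := by
    have e : ((1 : L), x) = (x * x⁻¹, x * 1) := by
      ext
      · simp [mul_inv_cancel₀ hx]
      · simp
    rw [e, kl_scale hJ hφ hx]
  have h3 : kl hJ hφ (single (1, 0) y) = kl hJ hφ (single (x⁻¹, 0) (x ^ 2 * y)) := by
    have e : ((1 : L), (0 : L)) = (x * x⁻¹, x * 0) := by
      ext
      · simp [mul_inv_cancel₀ hx]
      · simp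
    rw [e, kl_scale hJ hφ hx]
  have h4 : kl hJ hφ (single (0, x) y) = kl hJ hφ (single (0, 1) (x ^ 2 * y)) := by
    have e : ((0 : L), x) = (x * 0, x * 1) := by simp
    rw [e, kl_scale hJ hφ hx]
  rw [h1, h2, h3, h4]
  abel

theorem DD_zero (y : L) : DD hJ hφ y 0 = 0 := by
  rw [DD_eq, kl_zero_vec, neg_zero]
  abel

theorem evA_dd (y x : L) (u : A) : evA hJ hφ (dd y x) u =
    H J (φ 1) (u + φ x) (φ y) + H J (φ 1) (u - φ x) (φ y) -
      (H J (φ 1) u (φ y) + H J (φ 1) u (φ y)) - (φ (x * x * y) + φ (x * x * y)) := by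
  simp only [dd, map_sub, map_add, evA_single, Pi.sub_apply, Pi.add_apply]
  change (if (1 : L) = 0 then _ else H J (φ 1) (u - φ (-x / 1)) (φ (1 * 1 * y))) +
    (if (1 : L) = 0 then _ else H J (φ 1) (u - φ (x / 1)) (φ (1 * 1 * y))) -
    ((if (1 : L) = 0 then _ else H J (φ 1) (u - φ (0 / 1)) (φ (1 * 1 * y))) +
    (if (1 : L) = 0 then _ else H J (φ 1) (u - φ (0 / 1)) (φ (1 * 1 * y)))) -
    ((if (0 : L) = 0 then φ (x * x * y) else _) + (if (0 : L) = 0 then φ (x * x * y) else _)) = _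
  simp only [one_ne_zero, if_false, if_true, div_one, one_mul, map_zero, sub_zero, map_neg,
    sub_neg_eq_add]

theorem evI_dd (y x : L) : evI (dd y x) = 0 := by
  simp only [dd, map_sub, map_add, evI_single]
  ring

/-- Vanishing of the class from vanishing of the function. -/
theorem DD_eq_zero_iff (y x : L) : DD hJ hφ y x = 0 ↔ ∀ u,
    H J (φ 1) (u + φ x) (φ y) + H J (φ 1) (u - φ x) (φ y) =
      H J (φ 1) u (φ y) + H J (φ 1) u (φ y) + (φ (x * x * y) + φ (x * x * y)) := by
  have h : DD hJ hφ y x = 0 ↔ dd y x ∈ RR hJ hφ := by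
    have h1 : DD hJ hφ y x = 0 ↔ kl hJ hφ (dd y x) = kl hJ hφ 0 := Iff.rfl
    rw [h1, kl_eq, sub_zero]
  rw [h, mem_RR]
  constructor
  · rintro ⟨h1, -⟩ u
    have h2 := evA_dd hJ hφ y x u
    rw [h1] at h2
    have h3 : H J (φ 1) (u + φ x) (φ y) + H J (φ 1) (u - φ x) (φ y) =
      (H J (φ 1) (u + φ x) (φ y) + H J (φ 1) (u - φ x) (φ y) -
      (H J (φ 1) u (φ y) + H J (φ 1) u (φ y)) - (φ (x * x * y) + φ (x * x * y))) +
      (H J (φ 1) u (φ y) + H J (φ 1) u (φ y) + (φ (x * x * y) + φ (x * x * y))) := by abel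
    rw [h3, ← h2]
    change (0 : A) + _ = _
    rw [zero_add]
  · intro h1
    refine ⟨?_, evI_dd y x⟩
    funext u
    rw [evA_dd, h1]
    change _ = (0 : A)
    abel

include hJ hφ in
theorem E1_nsmul {y : L} (hy : y ≠ 0) (n : ℕ) (u : A) :
    H J (φ 1) (u + φ (n * y⁻¹)) (φ y) =
      H J (φ 1) u (φ y) + (n • u + n • u) + φ (n * n * y⁻¹) := by
  have he := hφ.ne (one_ne_zero (α := L))
  induction n with
  | zero => simp
  | succ n ih =>
    have h := H_add_i hJ he (u + φ (n * y⁻¹)) (φ y) (hφ.ne hy)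
    rw [hφ.J1 hy] at h
    have e1 : ((n + 1 : ℕ) : L) * y⁻¹ = n * y⁻¹ + y⁻¹ := by push_cast; ring
    have e2 : ((n + 1 : ℕ) : L) * ((n + 1 : ℕ) : L) * y⁻¹ =
        n * n * y⁻¹ + n * y⁻¹ + n * y⁻¹ + y⁻¹ := by push_cast; ring
    rw [e1, map_add, ← add_assoc, h, ih, e2]
    simp only [map_add, succ_nsmul]
    abel

theorem DD_nat {y : L} (hy : y ≠ 0) (n : ℕ) : DD hJ hφ y (n * y⁻¹) = 0 := by
  rw [DD_eq_zero_iff]
  intro u
  have h1 := E1_nsmul hJ hφ hy n u
  have h2 := E1_nsmul hJ hφ hy n (u - φ (n * y⁻¹))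
  rw [sub_add_cancel] at h2
  have e : (n : L) * y⁻¹ * (n * y⁻¹) * y = n * n * y⁻¹ := by field_simp
  have e3 : n • φ ((n : L) * y⁻¹) = φ (n * n * y⁻¹) := by
    rw [← map_nsmul]
    congr 1
    rw [nsmul_eq_mul]
    ring
  rw [smul_sub, e3] at h2
  rw [h1, e]
  have h3 : H J (φ 1) (u - φ (n * y⁻¹)) (φ y) = H J (φ 1) u (φ y) -
      (n • u - φ (n * n * y⁻¹) + (n • u - φ (n * n * y⁻¹))) - φ (n * n * y⁻¹) := by
    rw [h2]
    abel
  rw [h3]
  abel

end

end Pool.Agent.HuaFd69
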