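import Mathlib
import Pool.Agent.HuaFd69.Dm

/-!
Change of the unit, and the unipotent elements fixing the parallelogram defects.
-/

set_option autoImplicit false

open scoped Classical
open Polynomial

namespace Pool.Agent.HuaFd69

open Pool.Agent.HuaVal Pool.Agent.HuaOne84

section

variable {p : ℕ} [Fact p.Prime]
variable {A : Type} [AddCommGroup A] {J : A → A → A} (hJ : JSys J)
variable {L : Type} [Field L] [Algebra (ZMod p) L] {φ : L →+ A} (hφ : FP J φ)

/-- The embedding for the unit `φ y⁻¹`. -/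
def isot (φ : L →+ A) (y : L) : L →+ A := φ.comp (AddMonoidHom.mulRight y⁻¹)

theorem isot_apply (φ : L →+ A) (y s : L) : isot φ y s = φ (s * y⁻¹) := rfl

include hφ in
theorem FP.isot {y : L} (hy : y ≠ 0) : FP J (isot φ y) where
  inj := by
    intro a b h
    have h1 : a * y⁻¹ = b * y⁻¹ := hφ.inj h
    exact mul_right_cancel₀ (inv_ne_zero hy) h1
  J := by
    intro u v hu hv
    rw [isot_apply, isot_apply, isot_apply, hφ.J _ _ (mul_ne_zero hu (inv_ne_zero hy))
      (mul_ne_zero hv (inv_ne_zero hy))]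
    congr 1
    field_simp

include hJ hφ in
/-- The square with respect to the unit `φ y⁻¹`. -/
theorem H_isot {y : L} (hy : y ≠ 0) (u : A) :
    H J (isot φ y 1) u (isot φ y 1) = H J (φ 1) u (φ y) := by
  rw [isot_apply, one_mul]
  by_cases hu : u = 0
  · rw [hu, H_zero_left, H_zero_left]
  · rw [H_of_ne hu, H_of_ne hu, hφ.J1 hy, hJ.self _ (hφ.ne (inv_ne_zero hy))]

include hJ hφ in
theorem evA_phi (y x s : L) : evA hJ hφ (dd y x) (φ s) = 0 := by
  rw [evA_dd, ← map_add, ← map_sub, hφ.Hu' hJ, hφ.Hu' hJ, hφ.Hu' hJ]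
  simp only [← map_add, ← map_sub]
  have h : (s + x) * (s + x) * y + (s - x) * (s - x) * y - (s * s * y + s * s * y) -
    (x * x * y + x * x * y) = 0 := by ring
  rw [h, map_zero]

/-- The second difference of the square at the unit `φ y⁻¹`. -/
theorem evA_second {y : L} (hy : y ≠ 0) (x : L) (u : A) :
    evA hJ hφ (dd y x) u =
      dl (φ x) (dl (φ x) fun u => H J (isot φ y 1) u (isot φ y 1)) (u - φ x) -
        (φ (x * x * y) + φ (x * x * y)) := by
  rw [evA_dd]
  simp only [dl, H_isot hJ hφ hy]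
  have e1 : u - φ x + φ x + φ x = u + φ x := by abel
  have e2 : u - φ x + φ x = u := by abel
  rw [e1, e2]
  abel

variable (hA : ∀ a : A, p • a = 0)

include hJ hφ hA in
theorem per_of_aff {y x c : L} (hy : y ≠ 0)
    (h : Aff (dl (φ c) (dl (φ x) (dl (φ x) fun u => H J (isot φ y 1) u (isot φ y 1)))))
    (u : A) : evA hJ hφ (dd y x) (u + φ c) = evA hJ hφ (dd y x) u := by
  obtain ⟨d, n, h1⟩ := h
  have h2 : ∀ u, evA hJ hφ (dd y x) (u + φ c) - evA hJ hφ (dd y x) u =
      d + n • (u - φ x) := by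
    intro u
    rw [← h1, evA_second hJ hφ hy, evA_second hJ hφ hy]
    have e : u + φ c - φ x = u - φ x + φ c := by abel
    rw [e]
    change _ = dl (φ x) (dl (φ x) fun u => H J (isot φ y 1) u (isot φ y 1)) (u - φ x + φ c) -
      dl (φ x) (dl (φ x) fun u => H J (isot φ y 1) u (isot φ y 1)) (u - φ x)
    abel
  have h3 : ∀ s : L, d + n • (φ s - φ x) = 0 := by
    intro s
    rw [← h2, ← map_add, evA_phi, evA_phi, sub_self]
  have h4 : n • φ 1 = 0 := by
    have e1 := h3 0
    have e2 := h3 1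
    rw [map_zero] at e1
    have e3 : n • φ 1 = (d + n • (φ 1 - φ x)) - (d + n • (0 - φ x)) := by
      rw [smul_sub, smul_sub, smul_zero]
      abel
    rw [e3, e1, e2, sub_self]
  have h5 : ((n : ℤ) : L) = 0 := by
    apply hφ.inj
    rw [map_zero, ← h4, ← map_zsmul, zsmul_eq_mul, mul_one]
  have h6 : ∀ a : A, n • a = 0 := by
    intro a
    have h7 : ((n : ℤ) : ZMod p) = 0 := by
      have h8 : algebraMap (ZMod p) L ((n : ℤ) : ZMod p) = 0 := by
        rw [map_intCast]
        exact h5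
      exact (map_eq_zero (algebraMap (ZMod p) L)).mp h8
    obtain ⟨k, hk⟩ := (ZMod.intCast_zmod_eq_zero_iff_dvd n p).mp h7
    rw [hk, mul_comm, mul_smul, natCast_zsmul, hA, smul_zero]
  have h7 : d = 0 := by
    have e := h3 0
    rwa [h6, add_zero] at e
  have h8 := h2 u
  rw [h6, h7, add_zero] at h8
  exact sub_eq_zero.mp h8

include hA in
theorem rh_up_of_aff {y x c : L} (hy : y ≠ 0)
    (h : Aff (dl (φ c) (dl (φ x) (dl (φ x) fun u => H J (isot φ y 1) u (isot φ y 1))))) :
    rh hJ hφ (up c) (DD hJ hφ y x) = DD hJ hφ y x := by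
  rw [DD, rh_kl, kl_eq, mem_RR, mv_up]
  constructor
  · rw [map_sub, evA_shr, sub_eq_zero]
    funext u
    have h1 := per_of_aff hJ hφ hA hy h (u + -φ c)
    rw [neg_add_cancel_right] at h1
    exact h1.symm
  · rw [map_sub, evI_shr, sub_self]

include hA in
/-- The upper unipotent elements fixing the defect. -/
theorem rh_up {y x c : L} (hy : y ≠ 0) (hxy : x * y ≠ 0) (hxy1 : x * y ≠ 1)
    (hc : Reg p (x * y) (c * y)) :
    rh hJ hφ (up c) (DD hJ hφ y x) = DD hJ hφ y x := by
  have h1 := et_reg (l := 1 - (x * y)⁻¹) hJ (hφ.isot hy) hxy (by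
    intro h
    apply hxy1
    have h2 : (x * y)⁻¹ = 1 := (sub_eq_zero.mp h).symm
    rw [← inv_inv (x * y), h2, inv_one]) (by
    rw [sub_mul, one_mul, inv_mul_cancel₀ hxy]) hc
  refine rh_up_of_aff hJ hφ hA hy ?_
  rw [← cl_eq_zero, cl_dl, sub_eq_zero]
  have e1 : isot φ y (c * y) = φ c := by
    rw [isot_apply, mul_assoc, mul_inv_cancel₀ hy, mul_one]
  have e2 : isot φ y (x * y) = φ x := by
    rw [isot_apply, mul_assoc, mul_inv_cancel₀ hy, mul_one]
  rw [e1] at h1
  have e3 : et J (isot φ y) (x * y) =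
      cl (dl (φ x) (dl (φ x) fun u => H J (isot φ y 1) u (isot φ y 1))) := by
    rw [et, om, e2]
    rfl
  rw [e3] at h1
  exact h1

include hA in
/-- The lower unipotent elements fixing the defect. -/
theorem rh_lo' {y x c : L} (hy : y ≠ 0) (hx : x ≠ 0) (hxy1 : x * y ≠ 1)
    (hc : Reg p (x * y) (c * (x ^ 2 * y))) :
    rh hJ hφ (lo c) (DD hJ hφ y x) = DD hJ hφ y x := by
  have e1 : x⁻¹ * (x ^ 2 * y) = x * y := by field_simp
  have h1 := rh_up hJ hφ hA (y := x ^ 2 * y) (x := x⁻¹) (c := c)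
    (mul_ne_zero (pow_ne_zero 2 hx) hy) (by rw [e1]; exact mul_ne_zero hx hy)
    (by rw [e1]; exact hxy1) (by rw [e1]; exact hc)
  rw [← DD_sg hJ hφ hx] at h1
  rw [rh_lo, h1, sg_sg]

end

end Pool.Agent.HuaFd69
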