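import Mathlib
import Pool.Agent.HuaFd69.Iso

/-!
The elements of a rational function field regular at infinity.
-/

set_option autoImplicit false

open Polynomial

namespace Pool.Agent.HuaFd69

section

variable {p : ℕ} [Fact p.Prime] {F : Type} [Field F] [Algebra (ZMod p) F] {r : F}

theorem Reg.zero : Reg p r 0 := ⟨0, 1, monic_one, by simp, by simp, by simp⟩

theorem Reg.one : Reg p r 1 := ⟨1, 1, monic_one, by simp, by simp, by simp⟩

theorem Reg.neg {x : F} (hx : Reg p r x) : Reg p r (-x) := by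
  obtain ⟨h, q, hq, hd, hq0, rfl⟩ := hx
  refine ⟨-h, q, hq, by rwa [natDegree_neg], hq0, ?_⟩
  rw [map_neg, neg_div]

theorem Reg.add {x y : F} (hx : Reg p r x) (hy : Reg p r y) : Reg p r (x + y) := by
  obtain ⟨h, q, hq, hd, hq0, rfl⟩ := hx
  obtain ⟨h', q', hq', hd', hq0', rfl⟩ := hy
  refine ⟨h * q' + h' * q, q * q', hq.mul hq', ?_, ?_, ?_⟩
  · rw [hq.natDegree_mul hq']
    refine (natDegree_add_le _ _).trans (max_le ?_ ?_)
    · refine natDegree_mul_le.trans ?_
      omega
    · refine natDegree_mul_le.trans ?_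
      omega
  · rw [map_mul]
    exact mul_ne_zero hq0 hq0'
  · simp only [map_add, map_mul]
    field_simp

theorem Reg.mul {x y : F} (hx : Reg p r x) (hy : Reg p r y) : Reg p r (x * y) := by
  obtain ⟨h, q, hq, hd, hq0, rfl⟩ := hx
  obtain ⟨h', q', hq', hd', hq0', rfl⟩ := hy
  refine ⟨h * h', q * q', hq.mul hq', ?_, ?_, ?_⟩
  · rw [hq.natDegree_mul hq']
    refine natDegree_mul_le.trans ?_
    omega
  · rw [map_mul]
    exact mul_ne_zero hq0 hq0'
  · simp only [map_mul]
    field_simp

/-- Normalisation of a quotient. -/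
theorem Reg.of_div {h g : (ZMod p)[X]} (hd : h.natDegree ≤ g.natDegree) (hg : aeval r g ≠ 0) :
    Reg p r (aeval r h / aeval r g) := by
  have hg0 : g ≠ 0 := by
    rintro rfl
    simp at hg
  have hlc : g.leadingCoeff ≠ 0 := leadingCoeff_ne_zero.mpr hg0
  have hc : g.leadingCoeff⁻¹ ≠ 0 := inv_ne_zero hlc
  refine ⟨C g.leadingCoeff⁻¹ * h, C g.leadingCoeff⁻¹ * g, ?_, ?_, ?_, ?_⟩
  · rw [Monic, leadingCoeff_mul, leadingCoeff_C, inv_mul_cancel₀ hlc]
  · rw [natDegree_C_mul hc, natDegree_C_mul hc]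
    exact hd
  · rw [map_mul, aeval_C]
    exact mul_ne_zero ((_root_.map_ne_zero _).mpr hc) hg
  · rw [map_mul, map_mul, aeval_C]
    have h1 : algebraMap (ZMod p) F g.leadingCoeff⁻¹ ≠ 0 := (_root_.map_ne_zero _).mpr hc
    rw [mul_div_mul_left _ _ h1]

/-- If `r` is algebraic then everything is regular. -/
theorem Reg.of_alg (hr : ¬ ∀ f : (ZMod p)[X], aeval r f = 0 → f = 0) (hgen : Gens p r) (x : F) :
    Reg p r x := by
  push Not at hr
  obtain ⟨m, hm, hm0⟩ := hr
  obtain ⟨h, g, hg, rfl⟩ := hgen x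
  have hg0 : g ≠ 0 := by
    rintro rfl
    simp at hg
  have hmd : m.natDegree ≠ 0 := by
    intro h0
    rw [eq_C_of_natDegree_eq_zero h0, aeval_C] at hm
    apply hm0
    rw [eq_C_of_natDegree_eq_zero h0, (map_eq_zero _).mp hm, C_0]
  have hM : (1 + m * X ^ h.natDegree : (ZMod p)[X]).natDegree = m.natDegree + h.natDegree := by
    rw [natDegree_add_eq_right_of_natDegree_lt]
    · rw [natDegree_mul_X_pow _ hm0]
    · rw [natDegree_mul_X_pow _ hm0, natDegree_one]
      omega
  have hM0 : (1 + m * X ^ h.natDegree : (ZMod p)[X]) ≠ 0 := by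
    intro h0
    rw [h0, natDegree_zero] at hM
    omega
  have e : aeval r (g * (1 + m * X ^ h.natDegree)) = aeval r g := by
    rw [map_mul, map_add, map_mul, hm, zero_mul, map_one, add_zero, mul_one]
  rw [← e]
  refine Reg.of_div ?_ (by rw [e]; exact hg)
  rw [natDegree_mul hg0 hM0, hM]
  omega

theorem Reg.nat (hx : F) (n : ℕ) : Reg p r (n : F) := by
  induction n with
  | zero => simpa using Reg.zero
  | succ n ih => push_cast; exact ih.add Reg.one

/-- The integers of the place at infinity. -/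
def regO (p : ℕ) [Fact p.Prime] {F : Type} [Field F] [Algebra (ZMod p) F] (r : F) :
    Subring F where
  carrier := {x | Reg p r x}
  mul_mem' := Reg.mul
  one_mem' := Reg.one
  add_mem' := Reg.add
  zero_mem' := Reg.zero
  neg_mem' := Reg.neg

theorem mem_regO {x : F} : x ∈ regO p r ↔ Reg p r x := Iff.rfl

theorem near_regO (hr : ∀ f : (ZMod p)[X], aeval r f = 0 → f = 0) (hgen : Gens p r) :
    Near (regO p r) r⁻¹ := by
  have hr0 : r ≠ 0 := by
    intro h
    have h1 := hr X (by rw [aeval_X, h])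
    exact X_ne_zero h1
  have hne : ∀ f : (ZMod p)[X], f ≠ 0 → aeval r f ≠ 0 := fun f hf h => hf (hr f h)
  refine ⟨?_, inv_ne_zero hr0, ?_, ?_⟩
  · rw [mem_regO]
    exact ⟨1, X, monic_X, by simp, by rwa [aeval_X], by simp⟩
  · rintro x ⟨h, q, hq, hd, hq0, rfl⟩
    have hXq : (X * q : (ZMod p)[X]).natDegree = q.natDegree + 1 := by
      rw [monic_X.natDegree_mul hq, natDegree_X, add_comm]
    have hdeg : (X * q + h : (ZMod p)[X]).natDegree = q.natDegree + 1 := by
      rw [natDegree_add_eq_left_of_natDegree_lt, hXq]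
      rw [hXq]
      omega
    have h0 : (X * q + h : (ZMod p)[X]) ≠ 0 := by
      intro h0
      rw [h0, natDegree_zero] at hdeg
      omega
    have h1 := hne _ h0
    have e : 1 + r⁻¹ * (aeval r h / aeval r q) = aeval r (X * q + h) / aeval r (X * q) := by
      simp only [map_add, map_mul, aeval_X]
      field_simp
    have h2 : aeval r (X * q) ≠ 0 := by
      rw [map_mul, aeval_X]
      exact mul_ne_zero hr0 hq0
    rw [e]
    refine ⟨div_ne_zero h1 h2, ?_⟩
    rw [inv_div, mem_regO]
    refine Reg.of_div ?_ h1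
    rw [hXq, hdeg]
  · intro x
    obtain ⟨h, g, hg, rfl⟩ := hgen x
    have hg0 : g ≠ 0 := by
      rintro rfl
      simp at hg
    refine ⟨h.natDegree, ?_⟩
    have e : r⁻¹ ^ h.natDegree * (aeval r h / aeval r g) =
        aeval r h / aeval r (X ^ h.natDegree * g) := by
      simp only [map_mul, map_pow, aeval_X]
      rw [inv_pow, inv_mul_eq_div, div_div, mul_comm]
    rw [e, mem_regO]
    refine Reg.of_div ?_ ?_
    · rw [natDegree_mul (pow_ne_zero _ X_ne_zero) hg0, natDegree_X_pow]
      omega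
    · simp only [map_mul, map_pow, aeval_X]
      exact mul_ne_zero (pow_ne_zero _ hr0) hg

end

end Pool.Agent.HuaFd69
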