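import Mathlib
import Pool.Agent.HuaFd69.Reg

/-!
The parallelogram defects are fixed by the group of the field of two points.
-/

set_option autoImplicit false

open scoped Classical
open Polynomial

namespace Pool.Agent.HuaFd69

open Pool.Agent.HuaVal Pool.Agent.HuaOne84

section Eta

variable {F L : Type} [Field F] [Field L]

/-- The embedding of groups attached to a subfield and an element `y`. -/
def eta (i : F →+* L) (y : L) (hy : y ≠ 0) : GG F →* GG L where
  toFun g := ⟨!![i (g.1 0 0), i (g.1 0 1) / y; i (g.1 1 0) * y, i (g.1 1 1)], by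
    rw [Matrix.det_fin_two_of]
    have hd : g.1 0 0 * g.1 1 1 - g.1 0 1 * g.1 1 0 = 1 := by
      have h := g.det_coe
      rw [Matrix.det_fin_two] at h
      exact h
    have h2 := congrArg i hd
    rw [map_sub, map_mul, map_mul, map_one] at h2
    rw [← h2]
    field_simp⟩
  map_one' := by
    ext a b
    fin_cases a <;> fin_cases b <;> simp
  map_mul' g h := by
    ext a b
    fin_cases a <;> fin_cases b <;>
      simp [Matrix.mul_apply, Fin.sum_univ_two, Matrix.vecMul, dotProduct] <;> field_simp

theorem eta_up (i : F →+* L) (y : L) (hy : y ≠ 0) (c : F) :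
    eta i y hy (up c) = up (i c / y) := by
  ext a b
  fin_cases a <;> fin_cases b <;> simp [eta, up]

theorem eta_lo (i : F →+* L) (y : L) (hy : y ≠ 0) (c : F) :
    eta i y hy (lo c) = lo (i c * y) := by
  ext a b
  fin_cases a <;> fin_cases b <;> simp [eta, lo]

theorem eta_di (i : F →+* L) (y : L) (hy : y ≠ 0) {k : F} (hk : k ≠ 0) (hk' : i k ≠ 0) :
    eta i y hy (di k hk) = di (i k) hk' := by
  ext a b
  fin_cases a <;> fin_cases b <;> simp [eta, di]

end Eta

section Iter

variable {A : Type} [AddCommGroup A]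

theorem iter_cons (c : A) (l : List A) (F : A → A) : iter (c :: l) F = dl c (iter l F) := rfl

theorem iter_sub (l : List A) (F G : A → A) : iter l (F - G) = iter l F - iter l G := by
  induction l with
  | nil => rfl
  | cons c l ih =>
    rw [iter_cons, iter_cons, iter_cons, ih]
    funext u
    simp only [dl, Pi.sub_apply]
    abel

theorem iter_dl (l : List A) (c : A) (F : A → A) : iter l (dl c F) = dl c (iter l F) := by
  induction l with
  | nil => rfl
  | cons d l ih =>
    rw [iter_cons, iter_cons, ih]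
    funext u
    simp only [dl]
    have e : u + d + c = u + c + d := by abel
    rw [e]
    abel

theorem iter_Tf (l : List A) (c : A) (F : A → A) : iter l (Tf c F) = Tf c (iter l F) := by
  induction l with
  | nil => rfl
  | cons d l ih =>
    rw [iter_cons, iter_cons, ih]
    funext u
    change iter l F (u + d + c) - iter l F (u + c) = iter l F (u + c + d) - iter l F (u + c)
    have e : u + d + c = u + c + d := by abel
    rw [e]

theorem iter_const (l : List A) (k : A) : ∃ m : A, iter l (fun _ => k) = fun _ => m := by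
  induction l with
  | nil => exact ⟨k, rfl⟩
  | cons d l ih =>
    obtain ⟨m, hm⟩ := ih
    refine ⟨0, ?_⟩
    rw [iter_cons, hm]
    funext u
    simp [dl]

theorem iter_const_cons (c : A) (l : List A) (k : A) : iter (c :: l) (fun _ => k) = 0 := by
  obtain ⟨m, hm⟩ := iter_const l k
  rw [iter_cons, hm]
  funext u
  simp [dl]

theorem dl_dl_aff (c d : A) {F : A → A} (hF : Aff F) : dl c (dl d F) = 0 := by
  obtain ⟨a, n, h⟩ := hF
  funext u
  simp only [dl, h, smul_add]
  simp

end Iter

section

variable {p : ℕ} [Fact p.Prime]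
variable {A : Type} [AddCommGroup A] {J : A → A → A} (hJ : JSys J)
variable {L : Type} [Field L] [Algebra (ZMod p) L] {φ : L →+ A} (hφ : FP J φ)

/-- Lift of the iterated differences. -/
noncomputable def Dn {F : Type} [Field F] (i : F →+* L) (y : L) (l : List F) (n : NN L) : NN L :=
  l.foldr (fun c m => act (shr (i c / y)) m - m) n

theorem Dn_cons {F : Type} [Field F] (i : F →+* L) (y : L) (c : F) (l : List F) (n : NN L) :
    Dn i y (c :: l) n = act (shr (i c / y)) (Dn i y l n) - Dn i y l n := rfl

theorem kl_Dn {F : Type} [Field F] (i : F →+* L) (y : L) (hy : y ≠ 0) (l : List F) (n : NN L) :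
    Ds ((rh hJ hφ).comp (eta i y hy)) l (kl hJ hφ n) = kl hJ hφ (Dn i y l n) := by
  induction l with
  | nil => rfl
  | cons c l ih =>
    rw [Ds_cons, ih, Dn_cons, kl_sub]
    congr 1
    change rh hJ hφ (eta i y hy (up c)) (kl hJ hφ (Dn i y l n)) = _
    rw [eta_up, rh_kl, mv_up]

theorem evA_Dn {F : Type} [Field F] (i : F →+* L) (y : L) (l : List F) (n : NN L) :
    evA hJ hφ (Dn i y l n) =
      iter ((l.map fun c => -c).map ((isot φ y).comp i.toAddMonoidHom)) (evA hJ hφ n) := by
  induction l with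
  | nil => rfl
  | cons c l ih =>
    rw [Dn_cons, map_sub, evA_shr, ih, List.map_cons, List.map_cons, iter_cons]
    have e : (isot φ y).comp i.toAddMonoidHom (-c) = -φ (i c / y) := by
      rw [map_neg]
      congr 1
      change φ (i c * y⁻¹) = φ (i c / y)
      rw [div_eq_mul_inv]
    rw [e]
    rfl

theorem evI_Dn_cons {F : Type} [Field F] (i : F →+* L) (y : L) (c : F) (l : List F) (n : NN L) :
    evI (Dn i y (c :: l) n) = 0 := by
  rw [Dn_cons, map_sub, evI_shr, sub_self]

/-- Finite degree of the defects. -/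
theorem Ds_zero {F : Type} [Field F] (i : F →+* L) {y : L} (hy : y ≠ 0) (x : L) {N : ℕ}
    (hN : ∀ l : List F, l.length = N →
      Aff (iter (l.map ((isot φ y).comp i.toAddMonoidHom))
        (dl (φ x) fun u => H J (isot φ y 1) u (isot φ y 1))))
    (l : List F) (hl : l.length = N + 1) :
    Ds ((rh hJ hφ).comp (eta i y hy)) l (DD hJ hφ y x) = 0 := by
  obtain ⟨c, l', rfl⟩ : ∃ c l', l = c :: l' := by
    cases l with
    | nil => simp at hl
    | cons c l' => exact ⟨c, l', rfl⟩
  have hl' : l'.length = N := by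
    rw [List.length_cons] at hl
    omega
  rw [DD, kl_Dn]
  have h0 : kl hJ hφ (Dn i y (c :: l') (dd y x)) = kl hJ hφ 0 := by
    rw [kl_eq, sub_zero, mem_RR]
    refine ⟨?_, evI_Dn_cons i y c l' _⟩
    rw [evA_Dn]
    have e1 : evA hJ hφ (dd y x) =
        Tf (-φ x) (dl (φ x) (dl (φ x) fun u => H J (isot φ y 1) u (isot φ y 1))) -
          fun _ => (φ (x * x * y) + φ (x * x * y)) := by
      funext u
      rw [evA_second hJ hφ hy]
      change _ = dl (φ x) (dl (φ x) fun u => H J (isot φ y 1) u (isot φ y 1)) (u + -φ x) - _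
      rw [← sub_eq_add_neg]
    rw [e1, iter_sub, iter_Tf, iter_dl]
    have h1 := hN (l'.map fun c => -c) (by rw [List.length_map, hl'])
    rw [List.map_cons, List.map_cons, iter_const_cons, sub_zero, iter_cons]
    have h2 := dl_dl_aff (φ x) (((isot φ y).comp i.toAddMonoidHom) (-c)) h1
    rw [h2, map_zero]
  exact h0

theorem FP.sub {F : Type} [Field F] (hφ : FP J φ) (i : F →+* L) :
    FP J (φ.comp i.toAddMonoidHom) where
  inj := by
    intro a b h
    exact i.injective (hφ.inj h)
  J := by
    intro u v hu hv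
    change J (φ (i u)) (φ (i v)) = φ (i (u * u * v⁻¹))
    rw [hφ.J _ _ ((_root_.map_ne_zero i).mpr hu) ((_root_.map_ne_zero i).mpr hv), map_mul i,
      map_mul i, map_inv₀ i]

theorem Reg.map {F : Type} [Field F] [Algebra (ZMod p) F] (i : F →ₐ[ZMod p] L) {r x : F}
    (h : Reg p r x) : Reg p (i r) (i x) := by
  obtain ⟨h, q, hq, hd, hq0, rfl⟩ := h
  refine ⟨h, q, hq, hd, ?_, ?_⟩
  · rw [aeval_algHom_apply]
    exact (_root_.map_ne_zero i).mpr hq0
  · rw [map_div₀, aeval_algHom_apply, aeval_algHom_apply]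

variable (hA : ∀ a : A, p • a = 0) (hFD : FinDeg p J)

include hA hFD in
/-- **The defects are fixed by the group of the field of two points.** -/
theorem fix_sub {F : Type} [Field F] [Algebra (ZMod p) F] (i : F →ₐ[ZMod p] L) {y x : L}
    (hy : y ≠ 0) (hx : x ≠ 0) (r : F) (hr : i r = x * y) (hr1 : x * y ≠ 1) (hgen : Gens p r)
    (g : GG F) :
    rh hJ hφ (eta i.toRingHom y hy g) (DD hJ hφ y x) = DD hJ hφ y x := by
  have hr0 : r ≠ 0 := by
    rintro rfl
    rw [map_zero] at hr
    exact mul_ne_zero hx hy hr.symm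
  have h1 : ∀ c, Reg p r c →
      rh hJ hφ (eta i.toRingHom y hy (up c)) (DD hJ hφ y x) = DD hJ hφ y x := by
    intro c hc
    rw [eta_up]
    refine rh_up hJ hφ hA hy (mul_ne_zero hx hy) hr1 ?_
    have h2 := hc.map i
    rw [hr] at h2
    have e : i.toRingHom c / y * y = i c := by
      rw [div_mul_cancel₀ _ hy]
      rfl
    rw [e]
    exact h2
  have h2 : ∀ c, Reg p r c →
      rh hJ hφ (eta i.toRingHom y hy (lo (r⁻¹ ^ 2 * c))) (DD hJ hφ y x) = DD hJ hφ y x := by
    intro c hc
    rw [eta_lo]
    refine rh_lo' hJ hφ hA hy hx hr1 ?_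
    have h2 := hc.map i
    rw [hr] at h2
    have e : i.toRingHom (r⁻¹ ^ 2 * c) * y * (x ^ 2 * y) = i c := by
      change i (r⁻¹ ^ 2 * c) * y * (x ^ 2 * y) = i c
      rw [map_mul, map_pow, map_inv₀, hr]
      field_simp
    rw [e]
    exact h2
  by_cases htr : ∀ f : (ZMod p)[X], aeval r f = 0 → f = 0
  · obtain ⟨N, hN⟩ := hFD F ((isot φ y).comp i.toRingHom.toAddMonoidHom)
      ((hφ.isot hy).sub i.toRingHom) r hgen
    refine fixed_of_finDeg ((rh hJ hφ).comp (eta i.toRingHom y hy)) (near_regO htr hgen)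
      (X := DD hJ hφ y x) (fun c hc => h1 c hc) (fun c hc => h2 c hc) N ?_ g
    intro l hl
    refine Ds_zero hJ hφ i.toRingHom hy x (N := N) (fun l hl => ?_) l hl
    have h3 := hN l hl
    have e1 : ((isot φ y).comp i.toRingHom.toAddMonoidHom) r = φ x := by
      change φ (i r * y⁻¹) = φ x
      rw [hr, mul_assoc, mul_inv_cancel₀ hy, mul_one]
    have e2 : ((isot φ y).comp i.toRingHom.toAddMonoidHom) 1 = isot φ y 1 := by
      change isot φ y (i 1) = _
      rw [map_one]
    rw [e1, e2] at h3
    exact h3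
  · have h3 := Reg.of_alg htr hgen
    have h4 : (stab (rh hJ hφ) (DD hJ hφ y x)).comap (eta i.toRingHom y hy) = ⊤ := by
      refine top_of_up_lo _ (fun c => h1 c (h3 c)) (fun c => ?_)
      have h5 := h2 (r ^ 2 * c) (h3 _)
      have e : r⁻¹ ^ 2 * (r ^ 2 * c) = c := by field_simp
      rw [e] at h5
      exact h5
    have h5 : g ∈ (stab (rh hJ hφ) (DD hJ hφ y x)).comap (eta i.toRingHom y hy) := by
      rw [h4]; trivial
    exact h5

end

end Pool.Agent.HuaFd69
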