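import Mathlib
import Pool.Agent.HuaFd69.Sub
import Pool.Agent.HuaFd69.Fld

/-!
All parallelogram defects are fixed by the whole group.
-/

set_option autoImplicit false

open scoped Classical
open Polynomial

namespace Pool.Agent.HuaFd69

open Pool.Agent.HuaVal Pool.Agent.HuaOne84

section

variable {p : ℕ} [Fact p.Prime]
variable {A : Type} [AddCommGroup A] {J : A → A → A} (hJ : JSys J)
variable {L : Type} [Field L] [Algebra (ZMod p) L] {φ : L →+ A} (hφ : FP J φ)

/-- The defect vanishes if `x y` lies in the prime field. -/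
theorem DD_prime {y x : L} (hy : y ≠ 0) (c : ZMod p) (h : x * y = algebraMap (ZMod p) L c) :
    DD hJ hφ y x = 0 := by
  have e : x = (c.val : L) * y⁻¹ := by
    have h1 : algebraMap (ZMod p) L c = (c.val : L) := by
      conv_lhs => rw [← ZMod.natCast_zmod_val c]
      rw [map_natCast]
    rw [← h1, ← h, mul_assoc, mul_inv_cancel₀ hy, mul_one]
  rw [e]
  exact DD_nat hJ hφ hy _

theorem DD_zero_left (x : L) : DD hJ hφ 0 x = 0 := by
  have h := DD_add hJ hφ 0 0 x
  rw [add_zero] at h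
  exact left_eq_add.mp h

theorem DD_neg (y x : L) : DD hJ hφ (-y) x = -DD hJ hφ y x := by
  have h := DD_add hJ hφ y (-y) x
  rw [add_neg_cancel, DD_zero_left] at h
  exact (neg_eq_of_add_eq_zero_right h.symm).symm

variable (hA : ∀ a : A, p • a = 0) (hFD : FinDeg p J)

/-- Being fixed by the whole group. -/
def Fx (m : MM hJ hφ) : Prop := ∀ g : GG L, rh hJ hφ g m = m

theorem Fx.zero : Fx hJ hφ 0 := fun g => map_zero _

theorem Fx.sub {m n : MM hJ hφ} (hm : Fx hJ hφ m) (hn : Fx hJ hφ n) : Fx hJ hφ (m - n) := by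
  intro g
  rw [map_sub, hm g, hn g]

theorem Fx.neg {m : MM hJ hφ} (hm : Fx hJ hφ m) : Fx hJ hφ (-m) := by
  intro g
  rw [map_neg, hm g]

include hA hFD in
theorem fx_gen {y x : L} (hy : y ≠ 0) (hx : x ≠ 0) (hgen : Gens p (x * y)) :
    Fx hJ hφ (DD hJ hφ y x) := by
  by_cases h1 : x * y = 1
  · rw [DD_prime (p := p) hJ hφ hy 1 (by rw [h1, map_one])]
    exact Fx.zero hJ hφ
  have h2 := fix_sub hJ hφ hA hFD (AlgHom.id (ZMod p) L) hy hx (x * y) rfl h1 hgen
  intro g
  have h3 : stab (rh hJ hφ) (DD hJ hφ y x) = ⊤ := by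
    refine top_of_up_lo _ (fun c => ?_) (fun c => ?_)
    · have h4 := h2 (up (c * y))
      rw [eta_up] at h4
      have e : (AlgHom.id (ZMod p) L).toRingHom (c * y) / y = c := by
        change c * y / y = c
        exact mul_div_cancel_right₀ c hy
      rw [e] at h4
      exact h4
    · have h4 := h2 (lo (c / y))
      rw [eta_lo] at h4
      have e : (AlgHom.id (ZMod p) L).toRingHom (c / y) * y = c := by
        change c / y * y = c
        exact div_mul_cancel₀ c hy
      rw [e] at h4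
      exact h4
  have h4 : g ∈ stab (rh hJ hφ) (DD hJ hφ y x) := by rw [h3]; trivial
  exact h4

/-- The translations fixing an element. -/
def Ns (m : MM hJ hφ) : AddSubgroup L where
  carrier := {n | up n ∈ stab (rh hJ hφ) m}
  zero_mem' := by
    change up 0 ∈ stab (rh hJ hφ) m
    rw [up_zero]
    exact (stab (rh hJ hφ) m).one_mem
  add_mem' := by
    intro a b ha hb
    change up (a + b) ∈ stab (rh hJ hφ) m
    rw [up_add]
    exact (stab (rh hJ hφ) m).mul_mem ha hb
  neg_mem' := by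
    intro a ha
    change up (-a) ∈ stab (rh hJ hφ) m
    have : (up (-a) : GG L) = (up a)⁻¹ := by
      rw [eq_inv_iff_mul_eq_one, ← up_add, neg_add_cancel, up_zero]
    rw [this]
    exact (stab (rh hJ hφ) m).inv_mem ha

/-- The multipliers of the translations fixing an element. -/
def Mu (m : MM hJ hφ) : Subring L where
  carrier := {μ | ∀ n ∈ Ns hJ hφ m, μ * n ∈ Ns hJ hφ m}
  mul_mem' := by
    intro a b ha hb n hn
    rw [mul_assoc]
    exact ha _ (hb _ hn)
  one_mem' := fun n hn => by rwa [one_mul]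
  add_mem' := by
    intro a b ha hb n hn
    rw [add_mul]
    exact (Ns hJ hφ m).add_mem (ha n hn) (hb n hn)
  zero_mem' := fun n hn => by rw [zero_mul]; exact (Ns hJ hφ m).zero_mem
  neg_mem' := by
    intro a ha n hn
    rw [neg_mul]
    exact (Ns hJ hφ m).neg_mem (ha n hn)

theorem sq_mem_Mu {m : MM hJ hφ} {k : L} (hk : k ≠ 0) (h : di k hk ∈ stab (rh hJ hφ) m) :
    k ^ 2 ∈ Mu hJ hφ m := by
  intro n hn
  change up (k ^ 2 * n) ∈ stab (rh hJ hφ) m
  have e : (up (k ^ 2 * n) : GG L) = di k hk * up n * (di k hk)⁻¹ := by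
    rw [di_up, mul_inv_cancel_right]
  rw [e]
  exact (stab (rh hJ hφ) m).mul_mem ((stab (rh hJ hφ) m).mul_mem h hn)
    ((stab (rh hJ hφ) m).inv_mem h)

/-- The subfield of a stabiliser consists of multipliers. -/
theorem sub_mem_Mu (hp2 : p ≠ 2) {m : MM hJ hφ} {F : Type} [Field F] [Algebra (ZMod p) F]
    (i : F →ₐ[ZMod p] L) {y : L} (hy : y ≠ 0)
    (h : ∀ g : GG F, rh hJ hφ (eta i.toRingHom y hy g) m = m) (k : F) : i k ∈ Mu hJ hφ m := by
  have h1 : ∀ k : F, i k ^ 2 ∈ Mu hJ hφ m := by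
    intro k
    by_cases hk : k = 0
    · rw [hk, map_zero]
      have e : (0 : L) ^ 2 = 0 := by ring
      rw [e]
      exact (Mu hJ hφ m).zero_mem
    have hk' : i k ≠ 0 := (_root_.map_ne_zero i).mpr hk
    refine sq_mem_Mu hJ hφ hk' ?_
    have h2 := h (di k hk)
    rw [eta_di (hk' := hk')] at h2
    exact h2
  have h2F : (2 : F) ≠ 0 := by
    intro h0
    have h3 : ((2 : ℕ) : ZMod p) = 0 := by
      have : algebraMap (ZMod p) F ((2 : ℕ) : ZMod p) = 0 := by
        rw [map_natCast]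
        exact_mod_cast h0
      exact (map_eq_zero _).mp this
    have h4 := (ZMod.natCast_eq_zero_iff 2 p).mp h3
    exact hp2 ((Nat.prime_dvd_prime_iff_eq Fact.out Nat.prime_two).mp h4)
  have e : k = (k / 2 / 2 + 1) ^ 2 - (k / 2 / 2 - 1) ^ 2 := by
    field_simp
    ring
  rw [e, map_sub, map_pow, map_pow]
  exact (Mu hJ hφ m).sub_mem (h1 _) (h1 _)

include hA hFD in
/-- **All defects are fixed.** -/
theorem fx_all (hp2 : p ≠ 2) {t : L} (ht : Gens p t) {y x : L} (hy : y ≠ 0) (hx : x ≠ 0) :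
    Fx hJ hφ (DD hJ hφ y x) := by
  -- elements with `x y` in the prime field
  by_cases hr : ∃ c : ZMod p, x * y = algebraMap (ZMod p) L c
  · obtain ⟨c, hc⟩ := hr
    rw [DD_prime hJ hφ hy c hc]
    exact Fx.zero hJ hφ
  push Not at hr
  have ht0 : t ≠ 0 := by
    rintro rfl
    obtain ⟨h, g, hg, hx⟩ := ht (x * y)
    apply hr (h.coeff 0 / g.coeff 0)
    rw [hx, map_div₀]
    simp [aeval_def, eval₂_at_zero]
  have hyt : t / x ≠ 0 := div_ne_zero ht0 hx
  have hxyt : x * (t / x) = t := by field_simp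
  have ht' : Fx hJ hφ (DD hJ hφ (t / x) x) :=
    fx_gen hJ hφ hA hFD hyt hx (by rw [hxyt]; exact ht)
  have hsum : DD hJ hφ (y + t / x) x = DD hJ hφ y x + DD hJ hφ (t / x) x := DD_add hJ hφ _ _ _
  by_cases hr2 : ∃ c : ZMod p, x * (y + t / x) = algebraMap (ZMod p) L c
  · obtain ⟨c, hc⟩ := hr2
    have h0 : DD hJ hφ (y + t / x) x = 0 := by
      by_cases h1 : y + t / x = 0
      · rw [h1, DD_zero_left]
      · exact DD_prime hJ hφ h1 c hc
    rw [h0] at hsum
    have e : DD hJ hφ y x = -DD hJ hφ (t / x) x := eq_neg_of_add_eq_zero_left hsum.symm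
    rw [e]
    exact ht'.neg hJ hφ
  push Not at hr2
  have hy2 : y + t / x ≠ 0 := by
    intro h0
    apply hr2 0
    rw [h0, mul_zero, map_zero]
  have hone : ∀ z : L, (∀ c : ZMod p, z ≠ algebraMap (ZMod p) L c) → z ≠ 1 := by
    intro z hz h1
    apply hz 1
    rw [h1, map_one]
  have f1 : ∀ g : GG (Fr p (x * y)),
      rh hJ hφ (eta (Fr p (x * y)).val.toRingHom y hy g) (DD hJ hφ y x) = DD hJ hφ y x :=
    fix_sub hJ hφ hA hFD (Fr p (x * y)).val hy hx (gr p (x * y)) rfl (hone _ hr)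
      (gens_gr (x * y))
  have f2 : ∀ g : GG (Fr p (x * (y + t / x))),
      rh hJ hφ (eta (Fr p (x * (y + t / x))).val.toRingHom (y + t / x) hy2 g)
        (DD hJ hφ y x) = DD hJ hφ y x := by
    intro g
    have h := fix_sub hJ hφ hA hFD (Fr p (x * (y + t / x))).val hy2 hx
      (gr p (x * (y + t / x))) rfl (hone _ hr2) (gens_gr _) g
    rw [hsum, map_add, ht'] at h
    exact add_right_cancel h
  have m1 : ∀ z : Fr p (x * y), (z : L) ∈ Mu hJ hφ (DD hJ hφ y x) := fun z =>
    sub_mem_Mu hJ hφ hp2 (Fr p (x * y)).val hy f1 z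
  have m2 : x * (y + t / x) ∈ Mu hJ hφ (DD hJ hφ y x) :=
    sub_mem_Mu hJ hφ hp2 (Fr p (x * (y + t / x))).val hy2 f2 (gr p (x * (y + t / x)))
  have m3 : x * y ∈ Mu hJ hφ (DD hJ hφ y x) := m1 (gr p (x * y))
  have m4 : t ∈ Mu hJ hφ (DD hJ hφ y x) := by
    have e : t = x * (y + t / x) - x * y := by
      rw [mul_add, hxyt]
      ring
    rw [e]
    exact (Mu hJ hφ (DD hJ hφ y x)).sub_mem m2 m3
  have m5 := subring_top ht hr (Mu hJ hφ (DD hJ hφ y x)) m1 m4
  have n1 : x ∈ Ns hJ hφ (DD hJ hφ y x) := by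
    have h := f1 (up (gr p (x * y)))
    rw [eta_up] at h
    have e : (Fr p (x * y)).val.toRingHom (gr p (x * y)) / y = x := by
      change x * y / y = x
      exact mul_div_cancel_right₀ x hy
    rw [e] at h
    exact h
  have n2 : ∀ c, up c ∈ stab (rh hJ hφ) (DD hJ hφ y x) := by
    intro c
    have h := m5 (c / x) x n1
    rw [div_mul_cancel₀ c hx] at h
    exact h
  have n3 : lo y ∈ stab (rh hJ hφ) (DD hJ hφ y x) := by
    have h := f1 (lo 1)
    rw [eta_lo] at h
    have e : (Fr p (x * y)).val.toRingHom 1 * y = y := by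
      rw [map_one, one_mul]
    rw [e] at h
    exact h
  intro g
  have h3 := top_of_up (stab (rh hJ hφ) (DD hJ hφ y x)) n2 hy n3
  have h4 : g ∈ stab (rh hJ hφ) (DD hJ hφ y x) := by rw [h3]; trivial
  exact h4

end

end Pool.Agent.HuaFd69
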