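import Mathlib

/-!
Two lemmas on quadratic maps.
-/

set_option autoImplicit false

namespace Pool.Agent.HuaFd69

section JvN

variable {V M : Type} [AddCommGroup V] [AddCommGroup M]

/-- The bilinear form of a map with the parallelogram law. -/
theorem jvn (half : ∀ v : V, ∃ w : V, w + w = v) (h2 : ∀ m : M, m + m = 0 → m = 0)
    (s : V → M) (h : ∀ x z, s (x + z) + s (x - z) = s x + s x + (s z + s z)) :
    (∀ x, s (-x) = s x) ∧
    (∀ x y z, s (x + y + z) - s (x + y - z) = s (x + z) - s (x - z) + (s (y + z) - s (y - z))) ∧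
    (∀ x, s (x + x) = s x + s x + (s x + s x)) := by
  have h0 : s 0 = 0 := by
    have e := h 0 0
    rw [add_zero, sub_zero] at e
    exact h2 _ (by rwa [left_eq_add] at e)
  have hev : ∀ x, s (-x) = s x := by
    intro x
    have e := h 0 x
    rw [zero_add, zero_sub, h0, add_zero, zero_add] at e
    exact add_left_cancel e
  have hdb : ∀ x, s (x + x) = s x + s x + (s x + s x) := by
    intro x
    have e := h x x
    rw [sub_self, h0, add_zero] at e
    exact e
  -- the form
  have hB : ∀ x1 x2 z, (s (x1 + x2 + z) - s (x1 + x2 - z)) + (s (x1 - x2 + z) - s (x1 - x2 - z)) =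
      (s (x1 + z) - s (x1 - z)) + (s (x1 + z) - s (x1 - z)) := by
    intro x1 x2 z
    have e1 := h (x1 + z) x2
    have e2 := h (x1 - z) x2
    have a1 : x1 + z + x2 = x1 + x2 + z := by abel
    have a2 : x1 + z - x2 = x1 - x2 + z := by abel
    have a3 : x1 - z + x2 = x1 + x2 - z := by abel
    have a4 : x1 - z - x2 = x1 - x2 - z := by abel
    rw [a1, a2] at e1
    rw [a3, a4] at e2
    have e3 : (s (x1 + x2 + z) - s (x1 + x2 - z)) + (s (x1 - x2 + z) - s (x1 - x2 - z)) =
        (s (x1 + x2 + z) + s (x1 - x2 + z)) - (s (x1 + x2 - z) + s (x1 - x2 - z)) := by abel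
    rw [e3, e1, e2]
    abel
  have hB0 : ∀ z, s (0 + z) - s (0 - z) = 0 := by
    intro z
    rw [zero_add, zero_sub, hev, sub_self]
  have hB2 : ∀ x z, s (x + x + z) - s (x + x - z) =
      (s (x + z) - s (x - z)) + (s (x + z) - s (x - z)) := by
    intro x z
    have e := hB x x z
    rw [sub_self, hB0, add_zero] at e
    exact e
  refine ⟨hev, fun x y z => ?_, hdb⟩
  obtain ⟨a, ha⟩ := half (x + y)
  obtain ⟨b, hb⟩ := half (x - y)
  -- `x = a + b`, `y = a - b` after doubling
  have e1 := hB a b z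
  have e2 := hB2 a z
  rw [ha] at e2
  rw [← e2] at e1
  -- halves may not be unique; work with `2 b = x - y`, `2 a = x + y`
  obtain ⟨x', hx'⟩ := half x
  obtain ⟨y', hy'⟩ := half y
  have f1 := hB (x' + y') (x' - y') z
  have g1 : x' + y' + (x' - y') = x := by rw [← hx']; abel
  have g2 : x' + y' - (x' - y') = y := by rw [← hy']; abel
  rw [g1, g2] at f1
  have f2 := hB2 (x' + y') z
  have g3 : x' + y' + (x' + y') = x + y := by rw [← hx', ← hy']; abel
  rw [g3] at f2
  rw [f2, f1]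

end JvN

section Polar

variable {p : ℕ} [Fact p.Prime] {L M : Type} [Field L] [Algebra (ZMod p) L] [AddCommGroup M]

theorem polar_zero (hp2 : p ≠ 2) (hp : ∀ m : M, p • m = 0) (B : L →+ L →+ L →+ M)
    (hs : ∀ y x z, B y x z = B y z x)
    (hB : ∀ k y x z : L, B (k ^ 2 * y) x z = B y (k ^ 2 * x) (k ^ 2 * z))
    (w : L) (hw : w ≠ 0) (hw1 : w ^ 2 - 1 ≠ 0) (y x z : L) : B y x z = 0 := by
  have tors : ∀ n : ℕ, n.Coprime p → ∀ m : M, n • m = 0 → m = 0 := by
    intro n hn m hm
    have h1 : addOrderOf m ∣ n := addOrderOf_dvd_of_nsmul_eq_zero hm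
    have h2 : addOrderOf m ∣ p := addOrderOf_dvd_of_nsmul_eq_zero (hp m)
    have h3 : addOrderOf m ∣ 1 := by
      rw [← hn]
      exact Nat.dvd_gcd h1 h2
    exact AddMonoid.addOrderOf_eq_one_iff.mp (Nat.dvd_one.mp h3)
  have h2 : ∀ m : M, 2 • m = 0 → m = 0 :=
    tors 2 ((Nat.coprime_primes Nat.prime_two Fact.out).mpr (Ne.symm hp2))
  -- second polarisation
  have hA : ∀ i j y x z : L, 2 • B (i * j * y) x z =
      B y (i ^ 2 * x) (j ^ 2 * z) + B y (j ^ 2 * x) (i ^ 2 * z) +
      2 • (B y (i ^ 2 * x) (i * j * z) + B y (i * j * x) (i ^ 2 * z) +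
        B y (j ^ 2 * x) (i * j * z) + B y (i * j * x) (j ^ 2 * z)) +
      4 • B y (i * j * x) (i * j * z) := by
    intro i j y x z
    have e := hB (i + j) y x z
    have e1 : (i + j) ^ 2 * y = i ^ 2 * y + i * j * y + i * j * y + j ^ 2 * y := by ring
    have e2 : (i + j) ^ 2 * x = i ^ 2 * x + i * j * x + i * j * x + j ^ 2 * x := by ring
    have e3 : (i + j) ^ 2 * z = i ^ 2 * z + i * j * z + i * j * z + j ^ 2 * z := by ring
    rw [e1, e2, e3] at e
    simp only [map_add, AddMonoidHom.add_apply] at e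
    rw [hB i y x z, hB j y x z] at e
    have e4 : 2 • B (i * j * y) x z =
        (B y (i ^ 2 * x) (i ^ 2 * z) + B (i * j * y) x z + B (i * j * y) x z +
          B y (j ^ 2 * x) (j ^ 2 * z)) - B y (i ^ 2 * x) (i ^ 2 * z) -
          B y (j ^ 2 * x) (j ^ 2 * z) := by rw [two_nsmul]; abel
    rw [e4, e]
    abel
  have hA' : ∀ i j y x z : L, -(2 • B (i * j * y) x z) =
      B y (i ^ 2 * x) (j ^ 2 * z) + B y (j ^ 2 * x) (i ^ 2 * z) -
      2 • (B y (i ^ 2 * x) (i * j * z) + B y (i * j * x) (i ^ 2 * z) +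
        B y (j ^ 2 * x) (i * j * z) + B y (i * j * x) (j ^ 2 * z)) +
      4 • B y (i * j * x) (i * j * z) := by
    intro i j y x z
    have e := hA i (-j) y x z
    have e1 : i * -j * y = -(i * j * y) := by ring
    have e2 : i * -j * x = -(i * j * x) := by ring
    have e3 : i * -j * z = -(i * j * z) := by ring
    rw [e1, e2, e3, neg_sq] at e
    simp only [map_neg, AddMonoidHom.neg_apply, neg_neg] at e
    rw [smul_neg] at e
    rw [e]
    abel
  have hS : ∀ i j y x z : L, B y (i ^ 2 * x) (j ^ 2 * z) + B y (j ^ 2 * x) (i ^ 2 * z) +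
      4 • B y (i * j * x) (i * j * z) = 0 := by
    intro i j y x z
    have e1 := hA i j y x z
    have e2 := hA' i j y x z
    apply h2
    have e3 : 2 • (B y (i ^ 2 * x) (j ^ 2 * z) + B y (j ^ 2 * x) (i ^ 2 * z) +
        4 • B y (i * j * x) (i * j * z)) =
        (B y (i ^ 2 * x) (j ^ 2 * z) + B y (j ^ 2 * x) (i ^ 2 * z) +
        2 • (B y (i ^ 2 * x) (i * j * z) + B y (i * j * x) (i ^ 2 * z) +
          B y (j ^ 2 * x) (i * j * z) + B y (i * j * x) (j ^ 2 * z)) +
        4 • B y (i * j * x) (i * j * z)) + (B y (i ^ 2 * x) (j ^ 2 * z) +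
        B y (j ^ 2 * x) (i ^ 2 * z) -
        2 • (B y (i ^ 2 * x) (i * j * z) + B y (i * j * x) (i ^ 2 * z) +
          B y (j ^ 2 * x) (i * j * z) + B y (i * j * x) (j ^ 2 * z)) +
        4 • B y (i * j * x) (i * j * z)) := by abel
    rw [e3, ← e1, ← e2, add_neg_cancel]
  have hD : ∀ i j y x z : L, B (i * j * y) x z =
      B y (i ^ 2 * x) (i * j * z) + B y (i * j * x) (i ^ 2 * z) +
        B y (j ^ 2 * x) (i * j * z) + B y (i * j * x) (j ^ 2 * z) := by
    intro i j y x z
    have e1 := hA i j y x z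
    have e2 := hS i j y x z
    rw [← sub_eq_zero]
    apply h2
    have e3 : 2 • (B (i * j * y) x z - (B y (i ^ 2 * x) (i * j * z) +
        B y (i * j * x) (i ^ 2 * z) +
        B y (j ^ 2 * x) (i * j * z) + B y (i * j * x) (j ^ 2 * z))) =
        2 • B (i * j * y) x z - 2 • (B y (i ^ 2 * x) (i * j * z) +
        B y (i * j * x) (i ^ 2 * z) +
        B y (j ^ 2 * x) (i * j * z) + B y (i * j * x) (j ^ 2 * z)) := by abel
    rw [e3, e1]
    have e4 : B y (i ^ 2 * x) (j ^ 2 * z) + B y (j ^ 2 * x) (i ^ 2 * z) +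
        2 • (B y (i ^ 2 * x) (i * j * z) + B y (i * j * x) (i ^ 2 * z) +
          B y (j ^ 2 * x) (i * j * z) + B y (i * j * x) (j ^ 2 * z)) +
        4 • B y (i * j * x) (i * j * z) - 2 • (B y (i ^ 2 * x) (i * j * z) +
        B y (i * j * x) (i ^ 2 * z) +
        B y (j ^ 2 * x) (i * j * z) + B y (i * j * x) (j ^ 2 * z)) =
        B y (i ^ 2 * x) (j ^ 2 * z) + B y (j ^ 2 * x) (i ^ 2 * z) +
        4 • B y (i * j * x) (i * j * z) := by abel
    rw [e4, e2]
  -- the values at one
  have s1 : ∀ i y : L, B y (i ^ 2) 1 + 2 • B y i i = 0 := by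
    intro i y
    have e := hS i 1 y 1 1
    simp only [one_pow, mul_one] at e
    rw [hs y 1 (i ^ 2)] at e
    apply h2
    have e3 : 2 • (B y (i ^ 2) 1 + 2 • B y i i) = B y (i ^ 2) 1 + B y (i ^ 2) 1 +
        4 • B y i i := by abel
    rw [e3, e]
  have s2 : ∀ i j y : L, B y (i * j) 1 + 2 • B y i j = 0 := by
    intro i j y
    have e := s1 (i + j) y
    have e1 : (i + j) ^ 2 = i ^ 2 + i * j + i * j + j ^ 2 := by ring
    rw [e1] at e
    simp only [map_add, AddMonoidHom.add_apply] at e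
    rw [hs y j i] at e
    apply h2
    have e3 : 2 • (B y (i * j) 1 + 2 • B y i j) =
        (B y (i ^ 2) 1 + B y (i * j) 1 + B y (i * j) 1 + B y (j ^ 2) 1 +
          2 • (B y i i + B y i j + (B y i j + B y j j))) -
        (B y (i ^ 2) 1 + 2 • B y i i) - (B y (j ^ 2) 1 + 2 • B y j j) := by abel
    rw [e3, e, s1, s1]
    abel
  have s3 : ∀ i y : L, 3 • B y i 1 = 0 := by
    intro i y
    have e := s2 i 1 y
    rw [mul_one] at e
    rw [← e]
    abel
  by_cases hp3 : p = 3
  · subst hp3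
    have t1 : ∀ i j y : L, B y i j = B y (i * j) 1 := by
      intro i j y
      have e := s2 i j y
      have e1 := hp (B y i j)
      have e2 : B y i j = 3 • B y i j - (B y (i * j) 1 + 2 • B y i j) + B y (i * j) 1 := by abel
      rw [e2, e1, e]
      abel
    -- the relation between the two arguments
    have t2 : ∀ i j y x : L, B (i * j * y) x 1 = 2 • B y ((i ^ 3 * j + i * j ^ 3) * x) 1 := by
      intro i j y x
      have e := hD i j y x 1
      rw [t1 (i ^ 2 * x), t1 (i * j * x), t1 (j ^ 2 * x), t1 (i * j * x)] at e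
      rw [e]
      have e1 : (i ^ 3 * j + i * j ^ 3) * x = i ^ 2 * x * (i * j * 1) +
        j ^ 2 * x * (i * j * 1) := by ring
      have e2 : i * j * x * (i ^ 2 * 1) = i ^ 2 * x * (i * j * 1) := by ring
      have e3 : i * j * x * (j ^ 2 * 1) = j ^ 2 * x * (i * j * 1) := by ring
      rw [e1, e2, e3, map_add, AddMonoidHom.add_apply]
      abel
    have t3 : ∀ y x : L, B y (w ^ 2 * (w ^ 2 - 1) ^ 2 * x) 1 = 0 := by
      intro y x
      have e1 := t2 w w y x
      have e2 := t2 (w * w) 1 y x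
      rw [mul_one, e1] at e2
      rw [← sub_eq_zero, ← smul_sub] at e2
      have e3 := h2 _ e2
      have e4 : B y ((w ^ 3 * w + w * w ^ 3) * x) 1 -
          B y (((w * w) ^ 3 * 1 + w * w * 1 ^ 3) * x) 1 =
          -B y (w ^ 2 * (w ^ 2 - 1) ^ 2 * x) 1 := by
        rw [← AddMonoidHom.sub_apply, ← map_sub, ← AddMonoidHom.neg_apply, ← map_neg]
        congr 2
        ring
      rw [e4, neg_eq_zero] at e3
      exact e3
    have hq : w ^ 2 * (w ^ 2 - 1) ^ 2 ≠ 0 := mul_ne_zero (pow_ne_zero _ hw) (pow_ne_zero _ hw1)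
    have t4 : ∀ y x : L, B y x 1 = 0 := by
      intro y x
      have e := t3 y ((w ^ 2 * (w ^ 2 - 1) ^ 2)⁻¹ * x)
      rwa [← mul_assoc, mul_inv_cancel₀ hq, one_mul] at e
    rw [t1, t4]
  · have h3 : ∀ m : M, 3 • m = 0 → m = 0 :=
      tors 3 ((Nat.coprime_primes Nat.prime_three Fact.out).mpr (Ne.symm hp3))
    have e1 := s2 x z y
    rw [h3 _ (s3 (x * z) y), zero_add] at e1
    exact h2 _ e1

/-- A family of quadratic maps with the scaling law vanishes. -/
theorem par_zero (hp2 : p ≠ 2) (hp : ∀ m : M, p • m = 0) (D : L → L → M)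
    (tors : ∀ m : M, m + m = 0 → m = 0) (h2L : (2 : L) ≠ 0)
    (h0 : ∀ y, D y 0 = 0)
    (hadd : ∀ y y' x, D (y + y') x = D y x + D y' x)
    (hpar : ∀ y x z, D y (x + z) + D y (x - z) = D y x + D y x + (D y z + D y z))
    (hscale : ∀ k y x : L, D (k ^ 2 * y) x = D y (k ^ 2 * x))
    (t : L) (ht0 : t ≠ 0) (ht1 : t ^ 2 - 1 ≠ 0) : D 1 t = 0 := by
  have half : ∀ v : L, ∃ w : L, w + w = v := fun v => ⟨v / 2, by field_simp; ring⟩
  have hj := fun y => jvn half tors (D y) (hpar y)
  let B : L →+ L →+ L →+ M :=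
    AddMonoidHom.mk' (fun y => AddMonoidHom.mk' (fun x => AddMonoidHom.mk'
      (fun z => D y (x + z) - D y (x - z)) (by
        intro a b
        have h := (hj y).2.1 a b x
        have s : ∀ c : L, D y (x - c) = D y (c - x) := by
          intro c
          rw [← neg_sub, (hj y).1]
        rw [s, s, s, add_comm x, add_comm x a, add_comm x b]
        exact h)) (by
      intro a b
      ext z
      exact (hj y).2.1 a b z)) (by
    intro a b
    ext x z
    change D (a + b) (x + z) - D (a + b) (x - z) =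
      (D a (x + z) - D a (x - z)) + (D b (x + z) - D b (x - z))
    rw [hadd, hadd]
    abel)
  have hBdef : ∀ y x z, B y x z = D y (x + z) - D y (x - z) := fun _ _ _ => rfl
  have hs : ∀ y x z, B y x z = B y z x := by
    intro y x z
    rw [hBdef, hBdef, add_comm x z, ← neg_sub z x, (hj y).1]
  have hB : ∀ k y x z : L, B (k ^ 2 * y) x z = B y (k ^ 2 * x) (k ^ 2 * z) := by
    intro k y x z
    rw [hBdef, hBdef, hscale, hscale, mul_add, mul_sub]
  have h1 := polar_zero hp2 hp B hs hB t ht0 ht1 1 t t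
  rw [hBdef, sub_self, h0, sub_zero, (hj 1).2.2] at h1
  exact tors _ (tors _ h1)

end Polar

end Pool.Agent.HuaFd69
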