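import Mathlib
import Pool.Agent.HuaFd69.Gen
import Pool.Agent.HuaFd69.Pol
import Pool.Agent.HuaTwo61.Main
import Pool.Agent.HuaVal.Quad

/-!
# Finite degree along the fields of two points, in odd characteristic
-/

set_option autoImplicit false

open scoped Classical
open Polynomial

namespace Pool.Agent.HuaFd69

open Pool.Agent.HuaVal Pool.Agent.HuaOne84

section

variable {p : ℕ} [Fact p.Prime]
variable {A : Type} [AddCommGroup A] {J : A → A → A} (hJ : JSys J)
variable {L : Type} [Field L] [Algebra (ZMod p) L] {φ : L →+ A} (hφ : FP J φ)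

theorem two_ne (hp2 : p ≠ 2) (L : Type) [Field L] [Algebra (ZMod p) L] : (2 : L) ≠ 0 := by
  intro h0
  have h3 : ((2 : ℕ) : ZMod p) = 0 := by
    have : algebraMap (ZMod p) L ((2 : ℕ) : ZMod p) = 0 := by
      rw [map_natCast]
      exact_mod_cast h0
    exact (map_eq_zero _).mp this
  have h4 := (ZMod.natCast_eq_zero_iff 2 p).mp h3
  exact hp2 ((Nat.prime_dvd_prime_iff_eq Fact.out Nat.prime_two).mp h4)

theorem p_smul_MM (m : MM hJ hφ) : p • m = 0 := by
  obtain ⟨n, rfl⟩ := kl_surj hJ hφ m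
  have h : p • n = 0 := by
    ext v
    rw [Finsupp.smul_apply, nsmul_eq_mul]
    have : (p : L) = 0 := by
      have h1 : algebraMap (ZMod p) L (p : ZMod p) = (p : L) := map_natCast _ _
      rw [← h1, ZMod.natCast_self, map_zero]
    rw [this, zero_mul]
    rfl
  have h2 : p • kl hJ hφ n = kl hJ hφ (p • n) := rfl
  rw [h2, h]
  rfl

theorem tors_two (hp2 : p ≠ 2) {M : Type} [AddCommGroup M] (hp : ∀ m : M, p • m = 0) (m : M)
    (hm : m + m = 0) : m = 0 := by
  have h1 : addOrderOf m ∣ 2 := addOrderOf_dvd_of_nsmul_eq_zero (by rwa [two_nsmul])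
  have h2 : addOrderOf m ∣ p := addOrderOf_dvd_of_nsmul_eq_zero (hp m)
  have hc : Nat.Coprime 2 p := (Nat.coprime_primes Nat.prime_two Fact.out).mpr (Ne.symm hp2)
  have h3 : addOrderOf m ∣ 1 := by
    rw [← hc]
    exact Nat.dvd_gcd h1 h2
  exact AddMonoid.addOrderOf_eq_one_iff.mp (Nat.dvd_one.mp h3)

variable (hA : ∀ a : A, p • a = 0) (hFD : FinDeg p J)

include hA hFD in
theorem DD_vanish (hp2 : p ≠ 2) {t : L} (ht : Gens p t) : DD hJ hφ 1 t = 0 := by
  by_cases hc : ∃ c : ZMod p, t = algebraMap (ZMod p) L c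
  · obtain ⟨c, hc⟩ := hc
    exact DD_prime hJ hφ one_ne_zero c (by rw [mul_one, hc])
  push Not at hc
  have h2L := two_ne hp2 L
  have ht0 : t ≠ 0 := fun h => hc 0 (by rw [h, map_zero])
  have ht1 : t ^ 2 - 1 ≠ 0 := by
    intro h
    have h1 : (t - 1) * (t + 1) = 0 := by linear_combination h
    rcases mul_eq_zero.mp h1 with h3 | h3
    · exact hc 1 (by rw [map_one]; exact sub_eq_zero.mp h3)
    · exact hc (-1) (by rw [map_neg, map_one]; exact eq_neg_of_add_eq_zero_left h3)
  have hfx : ∀ y x : L, Fx hJ hφ (DD hJ hφ y x) := by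
    intro y x
    by_cases hy : y = 0
    · rw [hy, DD_zero_left]
      exact Fx.zero hJ hφ
    by_cases hx : x = 0
    · rw [hx, DD_zero]
      exact Fx.zero hJ hφ
    exact fx_all hJ hφ hA hFD hp2 ht hy hx
  refine par_zero hp2 (p_smul_MM hJ hφ) (DD hJ hφ) (tors_two hp2 (p_smul_MM hJ hφ)) h2L
    (DD_zero hJ hφ) (DD_add hJ hφ) ?_ ?_ t ht0 ht1
  · intro y x z
    rw [DD_par, hfx y x, hfx y x]
  · intro k y x
    by_cases hk : k = 0
    · have e : (0 : L) ^ 2 = 0 := by ring
      rw [hk, e, zero_mul, zero_mul, DD_zero_left, DD_zero]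
    · have h1 := DD_di hJ hφ hk (k ^ 2 * y) x
      rw [hfx] at h1
      rw [h1]
      congr 1
      field_simp

include hJ hA hFD in
/-- The parallelogram law for the squares. -/
theorem par_law (hp2 : p ≠ 2) {e : A} (he : e ≠ 0) (u t : A) :
    H J e (u + t) e + H J e (u - t) e = H J e u e + H J e u e + (H J e t e + H J e t e) := by
  obtain ⟨L, iF, iA, φ, s, h1, hs, hφ, hgen⟩ : ∃ (L : Type) (_ : Field L)
      (_ : Algebra (ZMod p) L) (φ : L →+ A) (s : L), φ 1 = e ∧ φ s = t ∧ FP J φ ∧ Gens p s := by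
    let _ : Module (ZMod p) A := AddCommGroup.zmodModule hA
    obtain ⟨L, iF, iA, φ, s, hinj, h1, hs, hinv, hU, hgen⟩ :=
      Pool.Agent.HuaTwo61.exists_fieldP (p := p) (toHS hJ e he) t
    refine ⟨L, iF, iA, φ.toAddMonoidHom, s, h1, hs, ⟨hinj, fun a b ha hb => ?_⟩, hgen⟩
    have ha' : φ.toAddMonoidHom a ≠ 0 := by
      intro h
      apply ha
      apply hinj
      exact h.trans (map_zero φ.toAddMonoidHom).symm
    have h3 := hU a b⁻¹
    change H J e (φ.toAddMonoidHom a) (φ.toAddMonoidHom b⁻¹) =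
      φ.toAddMonoidHom (a * a * b⁻¹) at h3
    have h4 : J e (φ.toAddMonoidHom b) = φ.toAddMonoidHom b⁻¹ := hinv b
    rw [H_of_ne ha', ← h4, hJ.inv e _ he] at h3
    exact h3
  have h3 := hφ.Hu' hJ s 1
  rw [h1, hs] at h3
  have hz := DD_vanish hJ hφ hA hFD hp2 (t := s) hgen
  rw [DD_eq_zero_iff] at hz
  have h2 := hz u
  rw [h1, hs, ← h3] at h2
  exact h2

end

/-- **Finite degree implies that the Hua maps are quadratic**, in odd characteristic. -/
theorem T3_of_finDeg {p : ℕ} [Fact p.Prime] (hp2 : p ≠ 2) {A : Type} [AddCommGroup A]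
    (hA : ∀ a : A, p • a = 0) {J : A → A → A} (hJ : JSys J) (hFD : FinDeg p J) :
    ∀ e, e ≠ 0 → ∀ x y z c, T3 J e x y z c = 0 := by
  intro e he x y z c
  have tors : ∀ m : A, m + m = 0 → m = 0 := tors_two hp2 hA
  have half : ∀ v : A, ∃ w : A, w + w = v := by
    intro v
    obtain ⟨k, hk⟩ := ((Fact.out : p.Prime).odd_of_ne_two hp2)
    refine ⟨(k + 1) • v, ?_⟩
    have h1 := hA v
    rw [hk] at h1
    have h2 : (k + 1) • v + (k + 1) • v = (2 * k + 1) • v + v := by
      rw [add_smul, add_smul, mul_smul, two_nsmul, one_nsmul]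
      abel
    rw [h2, h1, zero_add]
  have hpar : ∀ c u t : A, H J e (u + t) c + H J e (u - t) c =
      H J e u c + H J e u c + (H J e t c + H J e t c) := by
    intro c u t
    by_cases hc : c = 0
    · simp only [hc, H_zero_right hJ he, add_zero]
    have hc' : J e c ≠ 0 := J_ne_zero hJ he hc
    have hch : ∀ u, H J e u c = H J (J e c) u (J e c) := by
      intro u
      by_cases hu : u = 0
      · rw [hu, H_zero_left, H_zero_left]
      · rw [H_of_ne hu, H_of_ne hu, hJ.self _ hc']
    have h := par_law hJ hA hFD hp2 hc' u t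
    rw [hch, hch, hch, hch]
    exact h
  obtain ⟨hev, hadd, hdb⟩ := jvn half tors (fun u => H J e u c) (hpar c)
  have h4 : ∀ a b, (H J e (a + b) c - H J e (a - b) c) + (H J e (a + b) c - H J e (a - b) c) =
      (H J e (a + b) c - H J e a c - H J e b c) + (H J e (a + b) c - H J e a c - H J e b c) +
      ((H J e (a + b) c - H J e a c - H J e b c) + (H J e (a + b) c - H J e a c - H J e b c)) := by
    intro a b
    have h5 := hpar c a b
    have h6 : H J e (a - b) c = H J e a c + H J e a c + (H J e b c + H J e b c) -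
      H J e (a + b) c := by
      rw [← h5]
      abel
    rw [h6]
    abel
  have h7 : ∀ a b, H J e (a + b) c - H J e (a - b) c =
      (H J e (a + b) c - H J e a c - H J e b c) + (H J e (a + b) c - H J e a c - H J e b c) := by
    intro a b
    rw [← sub_eq_zero]
    apply tors
    have h8 := h4 a b
    rw [← sub_eq_zero] at h8
    rw [← h8]
    abel
  have h9 : H J e (x + y + z) c - H J e (x + y - z) c =
      H J e (x + z) c - H J e (x - z) c + (H J e (y + z) c - H J e (y - z) c) := hadd x y z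
  rw [h7, h7, h7] at h9
  have h10 : T3 J e x y z c + T3 J e x y z c =
      ((H J e (x + y + z) c - H J e (x + y) c - H J e z c) +
        (H J e (x + y + z) c - H J e (x + y) c - H J e z c)) -
      (((H J e (x + z) c - H J e x c - H J e z c) + (H J e (x + z) c - H J e x c - H J e z c)) +
      ((H J e (y + z) c - H J e y c - H J e z c) +
        (H J e (y + z) c - H J e y c - H J e z c))) := by
    rw [T3]
    abel
  apply tors
  rw [h10, h9, sub_self]

end Pool.Agent.HuaFd69
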