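import Mathlib
import Pool.Agent.HuaFd69.Main
import Pool.Agent.HuaP73.Trick
import Pool.Agent.HuaP87.Fd

/-!
# The dichotomy: a closed pair of the ultrapower, or finite degree
-/

set_option autoImplicit false

open Polynomial

namespace Pool.Agent.HuaFd69

open Pool.Agent.HuaVal Pool.Agent.HuaOne84 Pool.Agent.HuaTop84 Pool.Agent.HuaPair25
  Pool.Agent.HuaKey73 Pool.Agent.HuaP73 Pool.Agent.HuaP87 Pool.Agent.HuaDom91

section

variable {A : Type} [AddCommGroup A]

theorem dl_eq_fwdDiff (c : A) (F : A → A) : dl c F = fwdDiff c F := rfl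

theorem iter_eq_act {L : Type} (f : L → A) (l : List L) (F : A → A) :
    iter (l.map f) F = Pool.Agent.HuaPair25.act ((l.map fun c => tt (f c)).prod) F := by
  induction l with
  | nil => simp [iter]
  | cons c l ih =>
    rw [List.map_cons, List.map_cons, List.prod_cons, map_mul, Module.End.mul_apply, act_tt,
      ← ih]
    rfl

theorem dl_isAff (c : A) {F : A → A} (hF : IsAff F) : Aff (dl c F) := by
  refine ⟨F c - F 0, 0, fun u => ?_⟩
  have h := hF u c
  rw [zero_smul, add_zero]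
  have h2 : F (u + c) = F u + F c - F 0 := by rw [← h]; abel
  change F (u + c) - F u = _
  rw [h2]
  abel

end

/-- **Dichotomy for a Hua system of exponent `p`.** -/
theorem pair_or_finDeg {p : ℕ} [Fact p.Prime] {A : Type} [AddCommGroup A] {J : A → A → A}
    (hJ : JSys J) :
    (∃ (e : A) (he : e ≠ 0) (P V : AddSubgroup (UP A)) (c : UP A),
      CP (HU hJ he) P V ∧ c ∉ P ∧ c ∉ V) ∨ FinDeg p J := by
  by_cases hpair : ∃ (e : A) (he : e ≠ 0) (P V : AddSubgroup (UP A)) (c : UP A),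
      CP (HU hJ he) P V ∧ c ∉ P ∧ c ∉ V
  · exact Or.inl hpair
  right
  intro L _ _ φ hφ t hgen
  have he : φ 1 ≠ 0 := hφ.ne one_ne_zero
  by_cases ht : t = 0
  · refine ⟨0, fun l hl => ⟨0, 0, fun u => ?_⟩⟩
    rw [List.length_eq_zero_iff.mp hl, ht]
    simp [iter, dl]
  by_cases ht1 : 1 + t = 0
  · have h1 := cl_eq_zero.mp (show cl (dl (φ (-1)) (ff J φ 1)) = 0 by
      rw [cl_dl, sub_eq_zero, map_neg]
      refine (Pd (cl (ff J φ 1))).neg_mem ?_
      have h := ff_per hJ hφ (one_ne_zero (α := L))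
      rwa [inv_one] at h)
    refine ⟨0, fun l hl => ?_⟩
    have ht2 : t = -1 := by linear_combination ht1
    rw [List.length_eq_zero_iff.mp hl, ht2]
    exact h1
  set H := toHS hJ (φ 1) he with hH
  have hy : φ t ≠ 0 := hφ.ne ht
  have hy1 : H.one + φ t ≠ 0 := by
    change φ 1 + φ t ≠ 0
    rw [← map_add]
    exact hφ.ne ht1
  have hρ := hrho H hy hy1
  have hrho0 : H.one + H.inv (φ t) = φ (1 + t⁻¹) := by
    change φ 1 + J (φ 1) (φ t) = _
    rw [hφ.J1 ht, map_add]
  have hg : ∀ u, gg H (φ t) (φ u) = φ ((1 + t⁻¹) ^ 4 * u) := by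
    intro u
    rw [gg_apply, hrho0]
    change Pool.Agent.HuaVal.H J (φ 1) (φ (1 + t⁻¹)) (Pool.Agent.HuaVal.H J (φ 1)
      (φ (1 + t⁻¹)) (φ u)) = _
    rw [hφ.Hu' hJ, hφ.Hu' hJ]
    congr 1
    ring
  have hgen2 := gen_change (l := 1 + t⁻¹) hgen
    ⟨1, X - 1, by simp [ht], by simp⟩
  rcases dichotomy hJ he hρ (d := 4) (by norm_num) hg hgen2 with h | ⟨N, hN⟩
  · exact absurd ⟨φ 1, he, h⟩ hpair
  refine ⟨N + 1, fun l hl => ?_⟩
  obtain ⟨c, l', rfl⟩ : ∃ c l', l = c :: l' := by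
    cases l with
    | nil => simp at hl
    | cons c l' => exact ⟨c, l', rfl⟩
  have hl' : l'.length = N := by
    rw [List.length_cons] at hl
    omega
  subst hl'
  have h1 := hN fun k => l'[(k : ℕ)]
  rw [Fin.prod_univ_fun_getElem l' fun c => tt (φ c), mem_aa, ← iter_eq_act] at h1
  rw [List.map_cons, iter_cons]
  exact dl_isAff _ h1

end Pool.Agent.HuaFd69
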