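import Mathlib
import Pool.Agent.HuaFd69.Glue
import Pool.Agent.HuaPP39.Main
import Pool.Agent.HuaFin91.Asm

/-!
# Hua systems of odd characteristic
-/

set_option autoImplicit false

namespace Pool.Agent.HuaFd69

open Pool.Agent.HuaVal Pool.Agent.HuaOne84 Pool.Agent.HuaKey73 Pool.Agent.HuaPP39
  Pool.Agent.HuaFin91

/-- **The Hua maps of a Hua system of odd characteristic are quadratic.** -/
theorem T3_odd {p : ℕ} [Fact p.Prime] (hp2 : p ≠ 2) {A : Type} [AddCommGroup A]
    (hA : ∀ a : A, p • a = 0) {J : A → A → A} (hJ : JSys J) :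
    ∀ e, e ≠ 0 → ∀ x y z c, T3 J e x y z c = 0 := by
  rcases pair_or_finDeg (p := p) hJ with ⟨e, he, P, V, c, hcp, hcP, hcV⟩ | hFD
  · exact T3_of_cp_ultra_odd hp2 hA hJ he hcp (fun h => hcP (by rw [h]; trivial))
      (fun h => hcV (by rw [h]; trivial))
  · exact T3_of_finDeg hp2 hA hJ hFD

/-- Hua systems on groups which are not of exponent two come from quadratic Jordan division
rings. -/
theorem fromJordan_of_not_two (A : Type) [AddCommGroup A] (hA : ∃ a : A, 2 • a ≠ 0)
    (j : A → Option A → Option A) (hj : IsHua j) : FromJordan j := by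
  obtain ⟨a, ha⟩ := hA
  haveI : Nontrivial A := ⟨a, 0, fun h => ha (by rw [h, smul_zero])⟩
  refine fromJordan_of_exponent (S := fun p => p ≠ 2) ?_ A ?_ j hj
  · intro p hp hp2 A _ hpA J hJ
    haveI : Fact p.Prime := ⟨hp⟩
    exact T3_odd hp2 hpA hJ
  · intro p _ hpA h2
    subst h2
    exact ha (hpA a)

end Pool.Agent.HuaFd69
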